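import Pool.Agent.Q99.RD.UWC

/-!
# Operators on spaces of bounded functions: semivariation
-/

set_option autoImplicit false
open Filter Topology
open scoped ENNReal NNReal

namespace Q99.RD

variable {𝕜 : Type} [RCLike 𝕜] {Γ : Type} {Y : Type} [NormedAddCommGroup Y] [NormedSpace 𝕜 Y]

/-- bounded functions -/
abbrev LI (𝕜 : Type) [RCLike 𝕜] (Γ : Type) := lp (fun _ : Γ => 𝕜) ∞

theorem exists_LI (u : Γ → 𝕜) (C : ℝ) (hC : 0 ≤ C) (hu : ∀ t, ‖u t‖ ≤ C) :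
    ∃ x : LI 𝕜 Γ, (∀ t, x t = u t) ∧ ‖x‖ ≤ C := by
  have h1 : Memℓp u ∞ := memℓp_infty ⟨C, by rintro _ ⟨t, rfl⟩; exact hu t⟩
  refine ⟨⟨u, h1⟩, fun t => rfl, ?_⟩
  exact lp.norm_le_of_forall_le hC hu

theorem norm_LI_le {x : LI 𝕜 Γ} {C : ℝ} (hC : 0 ≤ C) (h : ∀ t, ‖x t‖ ≤ C) : ‖x‖ ≤ C :=
  lp.norm_le_of_forall_le hC h

theorem LI_apply_le (x : LI 𝕜 Γ) (t : Γ) : ‖x t‖ ≤ ‖x‖ := lp.norm_apply_le_norm (by simp) x t

/-- the supremum of the norms of the values of the operator on the functions bounded by `g` -/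
noncomputable def SV (T : LI 𝕜 Γ →L[𝕜] Y) (g : Γ → ℝ) : ℝ :=
  sSup {r | ∃ h : LI 𝕜 Γ, (∀ t, ‖h t‖ ≤ g t) ∧ r = ‖T h‖}

theorem SV_bdd (T : LI 𝕜 Γ →L[𝕜] Y) {g : Γ → ℝ} {C : ℝ} (hC : 0 ≤ C) (hg : ∀ t, g t ≤ C) :
    ∀ r ∈ {r | ∃ h : LI 𝕜 Γ, (∀ t, ‖h t‖ ≤ g t) ∧ r = ‖T h‖}, r ≤ ‖T‖ * C := by
  rintro _ ⟨h, hh, rfl⟩
  refine (T.le_opNorm h).trans (mul_le_mul_of_nonneg_left ?_ (norm_nonneg _))
  exact norm_LI_le hC fun t => (hh t).trans (hg t)

theorem le_SV (T : LI 𝕜 Γ →L[𝕜] Y) {g : Γ → ℝ} {C : ℝ} (hC : 0 ≤ C) (hg : ∀ t, g t ≤ C) {h : LI 𝕜 Γ}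
    (hh : ∀ t, ‖h t‖ ≤ g t) : ‖T h‖ ≤ SV T g :=
  le_csSup ⟨_, SV_bdd T hC hg⟩ ⟨h, hh, rfl⟩

theorem SV_le (T : LI 𝕜 Γ →L[𝕜] Y) {g : Γ → ℝ} {B : ℝ} (h0 : ∀ t, 0 ≤ g t)
    (hB : ∀ h : LI 𝕜 Γ, (∀ t, ‖h t‖ ≤ g t) → ‖T h‖ ≤ B) : SV T g ≤ B := by
  apply csSup_le
  · exact ⟨‖T 0‖, 0, fun t => by
      show ‖(0 : 𝕜)‖ ≤ g t
      rw [norm_zero]
      exact h0 t, rfl⟩
  · rintro _ ⟨h, hh, rfl⟩
    exact hB h hh

theorem SV_nonneg (T : LI 𝕜 Γ →L[𝕜] Y) {g : Γ → ℝ} {C : ℝ} (hC : 0 ≤ C) (hg : ∀ t, g t ≤ C) (h0 : ∀ t, 0 ≤ g t) :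
    0 ≤ SV T g := by
  have := le_SV T hC hg (h := 0) (fun t => by
    show ‖(0 : 𝕜)‖ ≤ g t
    rw [norm_zero]
    exact h0 t)
  rw [map_zero, norm_zero] at this
  exact this

theorem SV_mono (T : LI 𝕜 Γ →L[𝕜] Y) {g g' : Γ → ℝ} {C : ℝ} (hC : 0 ≤ C) (hg' : ∀ t, g' t ≤ C) (h0 : ∀ t, 0 ≤ g t)
    (h : ∀ t, g t ≤ g' t) : SV T g ≤ SV T g' :=
  SV_le T h0 fun _ hu => le_SV T hC hg' fun t => (hu t).trans (h t)

/-- splitting of a function -/
theorem split_LI (h : LI 𝕜 Γ) (g g' : Γ → ℝ) (h0 : ∀ t, 0 ≤ g t) (h0' : ∀ t, 0 ≤ g' t)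
    (hh : ∀ t, ‖h t‖ ≤ g t + g' t) :
    ∃ u u' : LI 𝕜 Γ, h = u + u' ∧ (∀ t, ‖u t‖ ≤ g t) ∧ ∀ t, ‖u' t‖ ≤ g' t := by
  have key : ∀ t, ∃ a : ℝ, 0 ≤ a ∧ a ≤ 1 ∧ a * ‖h t‖ ≤ g t ∧ (1 - a) * ‖h t‖ ≤ g' t := by
    intro t
    by_cases hz : g t + g' t = 0
    · have h1 := hh t
      rw [hz] at h1
      have h2 : ‖h t‖ = 0 := le_antisymm h1 (norm_nonneg _)
      exact ⟨0, le_rfl, zero_le_one, by rw [h2]; simpa using h0 t, by rw [h2]; simpa using h0' t⟩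
    · have hpos : 0 < g t + g' t := lt_of_le_of_ne (add_nonneg (h0 t) (h0' t)) (Ne.symm hz)
      refine ⟨g t / (g t + g' t), div_nonneg (h0 t) hpos.le, ?_, ?_, ?_⟩
      · rw [div_le_one hpos]
        linarith [h0' t]
      · rw [div_mul_eq_mul_div, div_le_iff₀ hpos]
        exact mul_le_mul_of_nonneg_left (hh t) (h0 t)
      · have e1 : 1 - g t / (g t + g' t) = g' t / (g t + g' t) := by
          field_simp
          ring
        rw [e1, div_mul_eq_mul_div, div_le_iff₀ hpos]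
        exact mul_le_mul_of_nonneg_left (hh t) (h0' t)
  choose a ha0 ha1 ha2 ha3 using key
  obtain ⟨u, hu, _⟩ := exists_LI (fun t => (a t : 𝕜) * h t) ‖h‖ (norm_nonneg _) (fun t => by
    rw [norm_mul, RCLike.norm_ofReal, abs_of_nonneg (ha0 t)]
    have := LI_apply_le h t
    nlinarith [ha1 t, norm_nonneg (h t)])
  refine ⟨u, h - u, by abel, fun t => ?_, fun t => ?_⟩
  · rw [hu, norm_mul, RCLike.norm_ofReal, abs_of_nonneg (ha0 t)]
    exact ha2 t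
  · have e1 : (h - u) t = ((1 - a t : ℝ) : 𝕜) * h t := by
      show h t - u t = _
      rw [hu, RCLike.ofReal_sub, RCLike.ofReal_one]
      ring
    rw [e1, norm_mul, RCLike.norm_ofReal, abs_of_nonneg (by linarith [ha1 t])]
    exact ha3 t

theorem SV_add_le (T : LI 𝕜 Γ →L[𝕜] Y) {g g' : Γ → ℝ} {C : ℝ} (hC : 0 ≤ C) (hg : ∀ t, g t ≤ C) (hg' : ∀ t, g' t ≤ C)
    (h0 : ∀ t, 0 ≤ g t) (h0' : ∀ t, 0 ≤ g' t) : SV T (fun t => g t + g' t) ≤ SV T g + SV T g' := by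
  apply SV_le T (fun t => add_nonneg (h0 t) (h0' t))
  intro h hh
  obtain ⟨u, u', rfl, h1, h2⟩ := split_LI h g g' h0 h0' hh
  rw [map_add]
  exact (norm_add_le _ _).trans (add_le_add (le_SV T hC hg h1) (le_SV T hC hg' h2))

/-- rotating a vector so that the value of a functional becomes its absolute value -/
theorem exists_rot {E : Type} [NormedAddCommGroup E] [NormedSpace 𝕜 E] (φ : StrongDual 𝕜 E) (h : E) :
    ∃ c : 𝕜, ‖c‖ = 1 ∧ φ (c • h) = (‖φ h‖ : 𝕜) := by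
  by_cases hz : φ h = 0
  · exact ⟨1, norm_one, by rw [hz, norm_zero, one_smul, hz, RCLike.ofReal_zero]⟩
  · have hn : (‖φ h‖ : 𝕜) ≠ 0 := by
      rw [Ne, RCLike.ofReal_eq_zero]
      exact norm_ne_zero_iff.2 hz
    refine ⟨(‖φ h‖ : 𝕜) / φ h, ?_, ?_⟩
    · rw [norm_div, RCLike.norm_ofReal, abs_norm, div_self (norm_ne_zero_iff.2 hz)]
    · rw [map_smul, smul_eq_mul, div_mul_cancel₀ _ hz]

theorem SV_add (φ : StrongDual 𝕜 (LI 𝕜 Γ)) {g g' : Γ → ℝ} {C : ℝ} (hC : 0 ≤ C) (hg : ∀ t, g t ≤ C)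
    (hg' : ∀ t, g' t ≤ C) (h0 : ∀ t, 0 ≤ g t) (h0' : ∀ t, 0 ≤ g' t) :
    SV φ (fun t => g t + g' t) = SV φ g + SV φ g' := by
  apply le_antisymm (SV_add_le φ hC hg hg' h0 h0')
  have h1 : ∀ h h' : LI 𝕜 Γ, (∀ t, ‖h t‖ ≤ g t) → (∀ t, ‖h' t‖ ≤ g' t) →
      ‖φ h‖ + ‖φ h'‖ ≤ SV φ (fun t => g t + g' t) := by
    intro h h' hh hh'
    obtain ⟨c, hc1, hc2⟩ := exists_rot φ h
    obtain ⟨c', hc1', hc2'⟩ := exists_rot φ h'
    have e1 : ‖φ (c • h + c' • h')‖ = ‖φ h‖ + ‖φ h'‖ := by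
      rw [map_add, hc2, hc2', ← RCLike.ofReal_add, RCLike.norm_ofReal, abs_of_nonneg (by positivity)]
    rw [← e1]
    refine le_SV φ (C := C + C) (by positivity) (fun t => add_le_add (hg t) (hg' t)) fun t => ?_
    show ‖c * h t + c' * h' t‖ ≤ g t + g' t
    refine (norm_add_le _ _).trans (add_le_add ?_ ?_)
    · rw [norm_mul, hc1, one_mul]
      exact hh t
    · rw [norm_mul, hc1', one_mul]
      exact hh' t
  have h2 : ∀ h' : LI 𝕜 Γ, (∀ t, ‖h' t‖ ≤ g' t) → SV φ g ≤ SV φ (fun t => g t + g' t) - ‖φ h'‖ := by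
    intro h' hh'
    exact SV_le φ h0 fun h hh => by linarith [h1 h h' hh hh']
  have h3 : SV φ g' ≤ SV φ (fun t => g t + g' t) - SV φ g :=
    SV_le φ h0' fun h' hh' => by linarith [h2 h' hh']
  linarith

/-! ### sets -/

open Classical in
/-- the indicator of a set -/
noncomputable def ind (A : Set Γ) (t : Γ) : ℝ := if t ∈ A then 1 else 0

theorem ind_nonneg (A : Set Γ) (t : Γ) : 0 ≤ ind A t := by
  unfold ind
  split_ifs
  · exact zero_le_one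
  · exact le_rfl

theorem ind_le (A : Set Γ) (t : Γ) : ind A t ≤ 1 := by
  unfold ind
  split_ifs
  · exact le_rfl
  · exact zero_le_one

theorem ind_mono {A B : Set Γ} (h : A ⊆ B) (t : Γ) : ind A t ≤ ind B t := by
  unfold ind
  by_cases hA : t ∈ A
  · rw [if_pos hA, if_pos (h hA)]
  · rw [if_neg hA]
    split_ifs
    · exact zero_le_one
    · exact le_rfl

theorem ind_union_le (A B : Set Γ) (t : Γ) : ind (A ∪ B) t ≤ ind A t + ind B t := by
  have h1 := ind_nonneg A t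
  have h2 := ind_nonneg B t
  by_cases h : t ∈ A ∪ B
  · rcases h with h | h
    · have : ind A t = 1 := if_pos h
      linarith [ind_le (A ∪ B) t]
    · have : ind B t = 1 := if_pos h
      linarith [ind_le (A ∪ B) t]
  · have : ind (A ∪ B) t = 0 := if_neg h
    linarith

theorem SV_set_mono (T : LI 𝕜 Γ →L[𝕜] Y) {A B : Set Γ} (h : A ⊆ B) : SV T (ind A) ≤ SV T (ind B) :=
  SV_mono T zero_le_one (ind_le B) (ind_nonneg A) (ind_mono h)

theorem SV_set_nonneg (T : LI 𝕜 Γ →L[𝕜] Y) (A : Set Γ) : 0 ≤ SV T (ind A) :=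
  SV_nonneg T zero_le_one (ind_le A) (ind_nonneg A)

theorem SV_set_union (T : LI 𝕜 Γ →L[𝕜] Y) (A B : Set Γ) : SV T (ind (A ∪ B)) ≤ SV T (ind A) + SV T (ind B) := by
  refine le_trans ?_ (SV_add_le T zero_le_one (ind_le A) (ind_le B) (ind_nonneg A) (ind_nonneg B))
  exact SV_mono T (C := 2) (by norm_num) (fun t => by linarith [ind_le A t, ind_le B t]) (ind_nonneg _)
    (ind_union_le A B)

theorem SV_set_iUnion (T : LI 𝕜 Γ →L[𝕜] Y) (A : ℕ → Set Γ) (a b : ℕ) :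
    SV T (ind (⋃ k ∈ Finset.Ico a b, A k)) ≤ ∑ k ∈ Finset.Ico a b, SV T (ind (A k)) := by
  classical
  induction Finset.Ico a b using Finset.induction_on with
  | empty =>
    rw [Finset.sum_empty]
    apply SV_le T (ind_nonneg _)
    intro h hh
    have : h = 0 := by
      apply lp.ext
      funext t
      have h1 := hh t
      have h2 : ind (⋃ k ∈ (∅ : Finset ℕ), A k) t = 0 := by
        apply if_neg
        simp
      rw [h2] at h1
      exact norm_le_zero_iff.1 h1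
    rw [this, map_zero, norm_zero]
  | insert c s hc ih =>
    rw [Finset.sum_insert hc, Finset.set_biUnion_insert]
    exact (SV_set_union T _ _).trans (add_le_add le_rfl ih)

/-- completely continuous operators are small on disjoint sets -/
theorem exhaustive (T : LI 𝕜 Γ →L[𝕜] Y) (hT : CompletelyContinuous T) (B : ℕ → Set Γ)
    (hB : ∀ i j, i ≠ j → Disjoint (B i) (B j)) {ε : ℝ} (hε : 0 < ε) : ∃ n, SV T (ind (B n)) < ε := by
  by_contra hc
  push Not at hc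
  -- functions on the sets with large images
  have h1 : ∀ n, ∃ h : LI 𝕜 Γ, (∀ t, ‖h t‖ ≤ ind (B n) t) ∧ ε / 2 < ‖T h‖ := by
    intro n
    by_contra hcon
    push Not at hcon
    have := SV_le T (ind_nonneg (B n)) hcon
    linarith [hc n]
  choose h hh1 hh2 using h1
  -- they are weakly null
  have h2 : ∀ φ : StrongDual 𝕜 (LI 𝕜 Γ), Tendsto (fun n => φ (h n)) atTop (𝓝 0) := by
    intro φ
    have h3 : ∀ s : Finset ℕ, ∑ n ∈ s, ‖φ (h n)‖ ≤ ‖φ‖ := by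
      intro s
      have h4 : ∀ n, ∃ c : 𝕜, ‖c‖ = 1 ∧ φ (c • h n) = (‖φ (h n)‖ : 𝕜) := fun n => exists_rot φ (h n)
      choose c hc1 hc2 using h4
      have h5 : ‖∑ n ∈ s, c n • h n‖ ≤ 1 := by
        apply norm_LI_le zero_le_one
        intro t
        have e1 : (∑ n ∈ s, c n • h n : LI 𝕜 Γ) t = ∑ n ∈ s, c n * h n t := by
          rw [lp.coeFn_sum, Finset.sum_apply]
          rfl
        rw [e1]
        by_cases hex : ∃ m ∈ s, t ∈ B m
        · obtain ⟨m, hm, htm⟩ := hex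
          rw [Finset.sum_eq_single m]
          · rw [norm_mul, hc1, one_mul]
            exact (hh1 m t).trans (ind_le _ _)
          · intro n _ hne
            have : ind (B n) t = 0 := if_neg fun htn => Set.disjoint_left.1 (hB n m hne) htn htm
            have h6 := hh1 n t
            rw [this] at h6
            rw [norm_le_zero_iff.1 h6, mul_zero]
          · intro hns
            exact absurd hm hns
        · rw [Finset.sum_eq_zero, norm_zero]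
          · exact zero_le_one
          · intro n hn
            have : ind (B n) t = 0 := if_neg fun htn => hex ⟨n, hn, htn⟩
            have h6 := hh1 n t
            rw [this] at h6
            rw [norm_le_zero_iff.1 h6, mul_zero]
      have e2 : φ (∑ n ∈ s, c n • h n) = ((∑ n ∈ s, ‖φ (h n)‖ : ℝ) : 𝕜) := by
        rw [map_sum, RCLike.ofReal_sum]
        exact Finset.sum_congr rfl fun n _ => hc2 n
      have h6 := φ.le_opNorm (∑ n ∈ s, c n • h n)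
      rw [e2, RCLike.norm_ofReal, abs_of_nonneg (Finset.sum_nonneg fun _ _ => norm_nonneg _)] at h6
      nlinarith [norm_nonneg φ]
    have h4 : Summable (fun n => ‖φ (h n)‖) := summable_of_sum_le (fun n => norm_nonneg _) h3
    exact tendsto_zero_iff_norm_tendsto_zero.2 h4.tendsto_atTop_zero
  have h3 : CauchySeq (fun n => T (h n)) := hT h fun φ => (h2 φ).cauchySeq
  -- the images are norm null
  rw [Metric.cauchySeq_iff] at h3
  obtain ⟨N, hN⟩ := h3 (ε / 2) (half_pos hε)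
  have h4 : ‖T (h N)‖ ≤ ε / 2 := by
    apply NormedSpace.norm_le_dual_bound 𝕜 _ (by positivity)
    intro f
    have h5 : Tendsto (fun m => ‖f (T (h N)) - f (T (h m))‖) atTop (𝓝 ‖f (T (h N)) - 0‖) :=
      (tendsto_const_nhds.sub (h2 (f.comp T))).norm
    rw [sub_zero] at h5
    refine le_of_tendsto h5 ?_
    filter_upwards [eventually_ge_atTop N] with m hm
    rw [← map_sub]
    refine (f.le_opNorm _).trans ?_
    rw [mul_comm]
    refine mul_le_mul_of_nonneg_right ?_ (norm_nonneg _)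
    rw [← dist_eq_norm]
    exact (hN N le_rfl m hm).le
  linarith [hh2 N]

end Q99.RD
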