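import Pool.Agent.Q99.RD.SV

/-!
# Completely continuous operators on spaces of bounded functions are weakly compact
-/

set_option autoImplicit false
open Filter Topology
open scoped ENNReal NNReal

namespace Q99.RD

variable {𝕜 : Type} [RCLike 𝕜] {Γ : Type} {Y : Type} [NormedAddCommGroup Y] [NormedSpace 𝕜 Y]

theorem incr (T : LI 𝕜 Γ →L[𝕜] Y) (hT : CompletelyContinuous T) (U : ℕ → Set Γ) (hU : Monotone U) {η : ℝ}
    (hη : 0 < η) : ∃ M0, ∀ M, M0 ≤ M → SV T (ind (U M \ U M0)) ≤ η := by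
  by_contra hc
  push Not at hc
  choose F hF1 hF2 using hc
  obtain ⟨M, hM0, hMs⟩ : ∃ M : ℕ → ℕ, M 0 = 0 ∧ ∀ n, M (n + 1) = F (M n) :=
    ⟨fun n => Nat.rec 0 (fun _ m => F m) n, rfl, fun n => rfl⟩
  have hmono : Monotone M := monotone_nat_of_le_succ fun n => by
    rw [hMs]
    exact hF1 _
  obtain ⟨n, hn⟩ := exhaustive T hT (fun j => U (M (j + 1)) \ U (M j)) (by
    have key : ∀ i j, i < j → Disjoint (U (M (i + 1)) \ U (M i)) (U (M (j + 1)) \ U (M j)) := by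
      intro i j hij
      rw [Set.disjoint_left]
      intro t h1 h2
      exact h2.2 (hU (hmono (Nat.succ_le_of_lt hij)) h1.1)
    intro i j hij
    rcases Nat.lt_or_ge i j with h | h
    · exact key i j h
    · exact (key j i (lt_of_le_of_ne h (Ne.symm hij))).symm) hη
  have := hF2 (M n)
  rw [← hMs] at this
  linarith

theorem SV_comp_le (T : LI 𝕜 Γ →L[𝕜] Y) (y : StrongDual 𝕜 Y) (hy : ‖y‖ ≤ 1) (A : Set Γ) :
    SV (y.comp T) (ind A) ≤ SV T (ind A) := by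
  apply SV_le _ (ind_nonneg A)
  intro h hh
  refine le_trans ?_ (le_SV T zero_le_one (ind_le A) hh)
  show ‖y (T h)‖ ≤ ‖T h‖
  refine (y.le_opNorm _).trans ?_
  nlinarith [norm_nonneg (T h)]

theorem control (T : LI 𝕜 Γ →L[𝕜] Y) (hT : CompletelyContinuous T) {ε : ℝ} (hε : 0 < ε) :
    ∃ (s : Finset (StrongDual 𝕜 Y)) (δ : ℝ), 0 < δ ∧
      ∀ A : Set Γ, (∀ y ∈ s, SV (y.comp T) (ind A) < δ) → SV T (ind A) ≤ ε := by
  classical
  by_contra hc
  push Not at hc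
  have step : ∀ (s : Finset (StrongDual 𝕜 Y)) (δ : ℝ), ∃ (A : Set Γ) (y : StrongDual 𝕜 Y), 0 < δ →
      (∀ y' ∈ s, SV (y'.comp T) (ind A) < δ) ∧ ‖y‖ ≤ 1 ∧ ε < SV (y.comp T) (ind A) := by
    intro s δ
    by_cases hδ : 0 < δ
    · obtain ⟨A, hA1, hA2⟩ := hc s δ hδ
      have h1 : ∃ h : LI 𝕜 Γ, (∀ t, ‖h t‖ ≤ ind A t) ∧ ε < ‖T h‖ := by
        by_contra hcon
        push Not at hcon
        exact absurd hA2 (not_lt.2 (SV_le T (ind_nonneg A) hcon))
      obtain ⟨h, hh1, hh2⟩ := h1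
      obtain ⟨y, hy1, hy2⟩ := exists_dual_vector'' 𝕜 (T h)
      refine ⟨A, y, fun _ => ⟨hA1, hy1, ?_⟩⟩
      refine lt_of_lt_of_le ?_ (le_SV (y.comp T) zero_le_one (ind_le A) hh1)
      show ε < ‖y (T h)‖
      rw [hy2, RCLike.norm_ofReal, abs_norm]
      exact hh2
    · exact ⟨∅, 0, fun h => absurd h hδ⟩
  choose FA Fy hF using step
  obtain ⟨δ, hδ⟩ : ∃ δ : ℕ → ℝ, δ = fun n => ε / 8 * (1 / 2) ^ n := ⟨_, rfl⟩
  have hδ0 : ∀ n, 0 < δ n := fun n => by
    rw [hδ]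
    positivity
  have hδs : ∀ a b, ∑ k ∈ Finset.Ico a b, δ k ≤ ε / 4 := by
    intro a b
    have h1 : ∑ k ∈ Finset.Ico a b, δ k ≤ ∑ k ∈ Finset.range b, δ k := by
      apply Finset.sum_le_sum_of_subset_of_nonneg
      · intro k hk
        rw [Finset.mem_Ico] at hk
        exact Finset.mem_range.2 hk.2
      · intro k _ _
        exact (hδ0 k).le
    refine h1.trans ?_
    rw [hδ, ← Finset.mul_sum]
    have h2 : ∑ k ∈ Finset.range b, (1 / 2 : ℝ) ^ k ≤ 2 := sum_geometric_two_le b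
    nlinarith
  obtain ⟨s, hs0, hss⟩ : ∃ s : ℕ → Finset (StrongDual 𝕜 Y), s 0 = ∅ ∧ ∀ n, s (n + 1) = insert (Fy (s n) (δ n)) (s n) :=
    ⟨fun n => Nat.rec ∅ (fun n t => insert (Fy t (δ n)) t) n, rfl, fun n => rfl⟩
  obtain ⟨A, hA⟩ : ∃ A : ℕ → Set Γ, A = fun n => FA (s n) (δ n) := ⟨_, rfl⟩
  obtain ⟨y, hy⟩ : ∃ y : ℕ → StrongDual 𝕜 Y, y = fun n => Fy (s n) (δ n) := ⟨_, rfl⟩
  have hmem : ∀ i n, i < n → y i ∈ s n := by
    intro i n hin
    induction n with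
    | zero => omega
    | succ n ih =>
      rw [hss]
      rcases Nat.lt_or_ge i n with h | h
      · exact Finset.mem_insert_of_mem (ih h)
      · have : i = n := by omega
        subst this
        rw [hy]
        exact Finset.mem_insert_self _ _
  have k1 : ∀ i n, i < n → SV ((y i).comp T) (ind (A n)) < δ n := by
    intro i n hin
    rw [hA]
    exact (hF (s n) (δ n) (hδ0 n)).1 _ (hmem i n hin)
  have k2 : ∀ n, ‖y n‖ ≤ 1 := fun n => by
    rw [hy]
    exact (hF (s n) (δ n) (hδ0 n)).2.1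
  have k3 : ∀ n, ε < SV ((y n).comp T) (ind (A n)) := fun n => by
    rw [hy, hA]
    exact (hF (s n) (δ n) (hδ0 n)).2.2
  -- finite unions with small tails
  have hM : ∀ n, ∃ M0, ∀ M, M0 ≤ M → SV T (ind ((⋃ k ∈ Finset.Ico n M, A k) \ ⋃ k ∈ Finset.Ico n M0, A k)) ≤ δ n := by
    intro n
    apply incr T hT (fun M => ⋃ k ∈ Finset.Ico n M, A k) _ (hδ0 n)
    intro a b hab
    apply Set.biUnion_subset_biUnion_left
    intro k hk
    rw [Finset.mem_coe, Finset.mem_Ico] at hk ⊢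
    exact ⟨hk.1, lt_of_lt_of_le hk.2 hab⟩
  choose M hM using hM
  obtain ⟨D, hD⟩ : ∃ D : ℕ → Set Γ, D = fun n => ⋃ k ∈ Finset.Ico n (M n), A k := ⟨_, rfl⟩
  have k4 : ∀ n k, n ≤ k → SV T (ind (A k \ D n)) ≤ δ n := by
    intro n k hnk
    refine le_trans (SV_set_mono T ?_) (hM n (max (M n) (k + 1)) (le_max_left _ _))
    rw [hD]
    apply Set.sdiff_subset_sdiff_left
    intro t ht
    rw [Set.mem_iUnion₂]
    exact ⟨k, Finset.mem_Ico.2 ⟨hnk, lt_of_lt_of_le (Nat.lt_succ_self k) (le_max_right _ _)⟩, ht⟩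
  obtain ⟨G, hG⟩ : ∃ G : ℕ → Set Γ, G = fun k => ⋂ n ∈ Finset.Ico 0 (k + 1), D n := ⟨_, rfl⟩
  have hGa : Antitone G := by
    intro a b hab
    rw [hG]
    apply Set.biInter_subset_biInter_left
    intro k hk
    rw [Finset.mem_coe, Finset.mem_Ico] at hk ⊢
    omega
  have k5 : ∀ k, SV T (ind (A k \ G k)) ≤ ε / 4 := by
    intro k
    have h1 : A k \ G k ⊆ ⋃ n ∈ Finset.Ico 0 (k + 1), (A k \ D n) := by
      rw [hG]
      rintro t ⟨ht1, ht2⟩
      rw [Set.mem_iInter₂] at ht2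
      push Not at ht2
      obtain ⟨n, hn, htn⟩ := ht2
      rw [Set.mem_iUnion₂]
      exact ⟨n, hn, ht1, htn⟩
    refine (SV_set_mono T h1).trans ((SV_set_iUnion T (fun n => A k \ D n) 0 (k + 1)).trans ?_)
    refine (Finset.sum_le_sum fun n hn => k4 n k ?_).trans (hδs 0 (k + 1))
    rw [Finset.mem_Ico] at hn
    omega
  have k6 : ∀ k, 3 * ε / 4 ≤ SV ((y k).comp T) (ind (G k)) := by
    intro k
    have h1 : SV ((y k).comp T) (ind (A k)) ≤ SV ((y k).comp T) (ind (G k ∪ (A k \ G k))) := by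
      apply SV_set_mono
      intro t ht
      by_cases h : t ∈ G k
      · exact Or.inl h
      · exact Or.inr ⟨ht, h⟩
    have h2 := SV_set_union ((y k).comp T) (G k) (A k \ G k)
    have h3 := SV_comp_le T (y k) (k2 k) (A k \ G k)
    have h4 := k5 k
    have h5 := k3 k
    linarith
  have k7 : ∀ k, SV ((y k).comp T) (ind (G (k + 1))) ≤ ε / 4 := by
    intro k
    have h1 : G (k + 1) ⊆ D (k + 1) := by
      rw [hG]
      apply Set.biInter_subset_of_mem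
      rw [Finset.mem_coe, Finset.mem_Ico]
      omega
    refine (SV_set_mono _ h1).trans ?_
    rw [hD]
    refine (SV_set_iUnion _ A (k + 1) (M (k + 1))).trans ?_
    refine (Finset.sum_le_sum fun n hn => (k1 k n ?_).le).trans (hδs (k + 1) (M (k + 1)))
    rw [Finset.mem_Ico] at hn
    omega
  have k8 : ∀ k, ε / 2 ≤ SV T (ind (G k \ G (k + 1))) := by
    intro k
    have h1 : SV ((y k).comp T) (ind (G k)) ≤ SV ((y k).comp T) (ind (G (k + 1) ∪ (G k \ G (k + 1)))) := by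
      apply SV_set_mono
      intro t ht
      by_cases h : t ∈ G (k + 1)
      · exact Or.inl h
      · exact Or.inr ⟨ht, h⟩
    have h2 := SV_set_union ((y k).comp T) (G (k + 1)) (G k \ G (k + 1))
    have h3 := SV_comp_le T (y k) (k2 k) (G k \ G (k + 1))
    have h4 := k6 k
    have h5 := k7 k
    linarith
  obtain ⟨n, hn⟩ := exhaustive T hT (fun k => G k \ G (k + 1)) (by
    have key : ∀ i j, i < j → Disjoint (G i \ G (i + 1)) (G j \ G (j + 1)) := by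
      intro i j hij
      rw [Set.disjoint_left]
      intro t h1 h2
      exact h1.2 (hGa (Nat.succ_le_of_lt hij) h2.1)
    intro i j hij
    rcases Nat.lt_or_ge i j with h | h
    · exact key i j h
    · exact (key j i (lt_of_le_of_ne h (Ne.symm hij))).symm) (half_pos hε)
  exact absurd hn (not_lt.2 (k8 n))

/-- the part of a function on a set -/
theorem exists_part (x : LI 𝕜 Γ) (A : Set Γ) : ∃ u : LI 𝕜 Γ, (∀ t ∈ A, u t = x t) ∧ ∀ t, t ∉ A → u t = 0 := by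
  classical
  obtain ⟨u, hu, _⟩ := exists_LI (fun t => if t ∈ A then x t else 0) ‖x‖ (norm_nonneg _) (fun t => by
    split_ifs
    · exact LI_apply_le x t
    · rw [norm_zero]
      exact norm_nonneg _)
  refine ⟨u, fun t ht => ?_, fun t ht => ?_⟩
  · rw [hu, if_pos ht]
  · rw [hu, if_neg ht]

theorem uwc_LI [CompleteSpace Y] (T : LI 𝕜 Γ →L[𝕜] Y) (hT : CompletelyContinuous T) : UWC T := by
  apply uwc_of_quadratic
  intro ε hε R
  obtain ⟨R', hR'0, hR'⟩ : ∃ R' : ℝ, 0 < R' ∧ 2 * R ≤ R' := ⟨2 * |R| + 1, by positivity, by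
    linarith [le_abs_self R]⟩
  obtain ⟨s, δ0, hδ0, hs⟩ := control T hT (show 0 < ε / (2 * R') by positivity)
  obtain ⟨τ, hτ⟩ : ∃ τ : ℝ, τ = ε / (2 * (‖T‖ + 1)) := ⟨_, rfl⟩
  have hτ0 : 0 < τ := by
    rw [hτ]
    positivity
  have hsq : ∀ (x : LI 𝕜 Γ) t, ‖x t‖ ^ 2 ≤ ‖x‖ ^ 2 := fun x t =>
    pow_le_pow_left₀ (norm_nonneg _) (LI_apply_le x t) 2
  refine ⟨fun x => ∑ y ∈ s, SV (y.comp T) (fun t => ‖x t‖ ^ 2), ∑ y ∈ s, ‖y.comp T‖ * R ^ 2, τ ^ 2 * δ0 / 2,
    by positivity, ?_, ?_, ?_, ?_⟩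
  · intro x
    exact Finset.sum_nonneg fun y _ => SV_nonneg _ (sq_nonneg ‖x‖) (hsq x) (fun t => sq_nonneg _)
  · intro x hx
    apply Finset.sum_le_sum
    intro y _
    apply SV_le _ (fun t => sq_nonneg _)
    intro h hh
    refine SV_bdd (y.comp T) (g := fun t => ‖x t‖ ^ 2) (sq_nonneg R) (fun t => ?_) _ ⟨h, hh, rfl⟩
    exact pow_le_pow_left₀ (norm_nonneg _) ((LI_apply_le x t).trans hx) 2
  · intro x x'
    rw [← Finset.sum_add_distrib, Finset.mul_sum, Finset.mul_sum, ← Finset.sum_add_distrib]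
    apply Finset.sum_congr rfl
    intro y _
    obtain ⟨C, hC⟩ : ∃ C : ℝ, C = ‖x + x'‖ ^ 2 + ‖x - x'‖ ^ 2 + 2 * ‖x‖ ^ 2 + 2 * ‖x'‖ ^ 2 := ⟨_, rfl⟩
    have hC0 : 0 ≤ C := by
      rw [hC]
      positivity
    have b1 : ∀ t, ‖(x + x') t‖ ^ 2 ≤ C := fun t => (hsq _ t).trans (by
      rw [hC]
      nlinarith [sq_nonneg ‖x - x'‖, sq_nonneg ‖x‖, sq_nonneg ‖x'‖])
    have b2 : ∀ t, ‖(x - x') t‖ ^ 2 ≤ C := fun t => (hsq _ t).trans (by
      rw [hC]
      nlinarith [sq_nonneg ‖x + x'‖, sq_nonneg ‖x‖, sq_nonneg ‖x'‖])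
    have b3 : ∀ t, ‖x t‖ ^ 2 ≤ C := fun t => (hsq _ t).trans (by
      rw [hC]
      nlinarith [sq_nonneg ‖x + x'‖, sq_nonneg ‖x - x'‖, sq_nonneg ‖x‖, sq_nonneg ‖x'‖])
    have b4 : ∀ t, ‖x' t‖ ^ 2 ≤ C := fun t => (hsq _ t).trans (by
      rw [hC]
      nlinarith [sq_nonneg ‖x + x'‖, sq_nonneg ‖x - x'‖, sq_nonneg ‖x‖, sq_nonneg ‖x'‖])
    have b5 : ∀ t, ‖x t‖ ^ 2 + ‖x t‖ ^ 2 ≤ C := fun t => by
      have := hsq x t
      rw [hC]
      nlinarith [sq_nonneg ‖x + x'‖, sq_nonneg ‖x - x'‖, sq_nonneg ‖x‖, sq_nonneg ‖x'‖]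
    have b6 : ∀ t, ‖x' t‖ ^ 2 + ‖x' t‖ ^ 2 ≤ C := fun t => by
      have := hsq x' t
      rw [hC]
      nlinarith [sq_nonneg ‖x + x'‖, sq_nonneg ‖x - x'‖, sq_nonneg ‖x‖, sq_nonneg ‖x'‖]
    have e1 := SV_add (y.comp T) (g := fun t => ‖(x + x') t‖ ^ 2) (g' := fun t => ‖(x - x') t‖ ^ 2) hC0 b1 b2
      (fun t => sq_nonneg _) (fun t => sq_nonneg _)
    have e2 := SV_add (y.comp T) (g := fun t => ‖x t‖ ^ 2 + ‖x t‖ ^ 2) (g' := fun t => ‖x' t‖ ^ 2 + ‖x' t‖ ^ 2) hC0 b5 b6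
      (fun t => by positivity) (fun t => by positivity)
    have e3 := SV_add (y.comp T) (g := fun t => ‖x t‖ ^ 2) (g' := fun t => ‖x t‖ ^ 2) hC0 b3 b3
      (fun t => sq_nonneg _) (fun t => sq_nonneg _)
    have e4 := SV_add (y.comp T) (g := fun t => ‖x' t‖ ^ 2) (g' := fun t => ‖x' t‖ ^ 2) hC0 b4 b4
      (fun t => sq_nonneg _) (fun t => sq_nonneg _)
    have e5 : (fun t => ‖(x + x') t‖ ^ 2 + ‖(x - x') t‖ ^ 2) =
        fun t => (‖x t‖ ^ 2 + ‖x t‖ ^ 2) + (‖x' t‖ ^ 2 + ‖x' t‖ ^ 2) := by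
      funext t
      have := parallelogram_law_with_norm 𝕜 (x t) (x' t)
      show ‖x t + x' t‖ ^ 2 + ‖x t - x' t‖ ^ 2 = _
      nlinarith
    rw [← e1, e5, e2, e3, e4]
    ring
  · intro x hx hq
    obtain ⟨A, hA⟩ : ∃ A : Set Γ, A = {t | τ < ‖x t‖} := ⟨_, rfl⟩
    obtain ⟨u, hu1, hu2⟩ := exists_part x A
    have hAs : SV T (ind A) ≤ ε / (2 * R') := by
      apply hs
      intro y hy
      have h1 : SV (y.comp T) (fun t => ‖x t‖ ^ 2) ≤ τ ^ 2 * δ0 / 2 := by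
        refine le_trans ?_ hq
        exact Finset.single_le_sum (f := fun y : StrongDual 𝕜 Y => SV (y.comp T) (fun t => ‖x t‖ ^ 2))
          (fun y' _ => SV_nonneg _ (sq_nonneg ‖x‖) (hsq x) (fun t => sq_nonneg _)) hy
      have h2 : SV (y.comp T) (ind A) ≤ δ0 / 2 := by
        apply SV_le _ (ind_nonneg A)
        intro h hh
        have h3 : ‖(y.comp T) (((τ ^ 2 : ℝ) : 𝕜) • h)‖ ≤ SV (y.comp T) (fun t => ‖x t‖ ^ 2) := by
          apply le_SV _ (sq_nonneg ‖x‖) (hsq x)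
          intro t
          show ‖((τ ^ 2 : ℝ) : 𝕜) * h t‖ ≤ ‖x t‖ ^ 2
          rw [norm_mul, RCLike.norm_ofReal, abs_of_nonneg (sq_nonneg τ)]
          by_cases ht : t ∈ A
          · have h4 := (hh t).trans (ind_le A t)
            have h5 : τ < ‖x t‖ := by
              rw [hA] at ht
              exact ht
            have h6 : τ ^ 2 ≤ ‖x t‖ ^ 2 := pow_le_pow_left₀ hτ0.le h5.le 2
            nlinarith [norm_nonneg (h t), sq_nonneg τ]
          · have h4 := hh t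
            have h5 : ind A t = 0 := if_neg ht
            rw [h5] at h4
            have h6 : ‖h t‖ = 0 := le_antisymm h4 (norm_nonneg _)
            rw [h6, mul_zero]
            positivity
        rw [map_smul, norm_smul, RCLike.norm_ofReal, abs_of_nonneg (sq_nonneg τ)] at h3
        have h4 : τ ^ 2 * ‖(y.comp T) h‖ ≤ τ ^ 2 * (δ0 / 2) := by linarith
        exact le_of_mul_le_mul_left h4 (by positivity)
      linarith
    have h1 : ‖T u‖ ≤ ε / 2 := by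
      have h2 : ‖T (((R'⁻¹ : ℝ) : 𝕜) • u)‖ ≤ SV T (ind A) := by
        apply le_SV T zero_le_one (ind_le A)
        intro t
        show ‖((R'⁻¹ : ℝ) : 𝕜) * u t‖ ≤ ind A t
        rw [norm_mul, RCLike.norm_ofReal, abs_of_nonneg (by positivity)]
        by_cases ht : t ∈ A
        · have h3 : ind A t = 1 := if_pos ht
          rw [h3, hu1 t ht, inv_mul_eq_div, div_le_one hR'0]
          exact (LI_apply_le x t).trans (hx.trans hR')
        · rw [hu2 t ht, norm_zero, mul_zero]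
          exact ind_nonneg A t
      rw [map_smul, norm_smul, RCLike.norm_ofReal, abs_of_nonneg (by positivity)] at h2
      have h3 : R'⁻¹ * ‖T u‖ ≤ R'⁻¹ * (ε / 2) := by
        refine (h2.trans hAs).trans (le_of_eq ?_)
        field_simp
      exact le_of_mul_le_mul_left h3 (by positivity)
    have h2 : ‖T (x - u)‖ ≤ ε / 2 := by
      have h3 : ‖x - u‖ ≤ τ := by
        apply norm_LI_le hτ0.le
        intro t
        show ‖x t - u t‖ ≤ τ
        by_cases ht : t ∈ A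
        · rw [hu1 t ht, sub_self, norm_zero]
          exact hτ0.le
        · rw [hu2 t ht, sub_zero]
          rw [hA] at ht
          exact not_lt.1 ht
      refine (T.le_opNorm _).trans ?_
      have h4 : ‖T‖ * τ ≤ ε / 2 := by
        rw [hτ, mul_div_assoc', div_le_div_iff₀ (by positivity) (by positivity)]
        nlinarith [norm_nonneg T]
      exact (mul_le_mul_of_nonneg_left h3 (norm_nonneg _)).trans h4
    have h3 : T x = T u + T (x - u) := by
      rw [← map_add]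
      congr 1
      abel
    rw [h3]
    exact (norm_add_le _ _).trans (by linarith)

end Q99.RD
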