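import Mathlib

/-!
# The reciprocal Dunford-Pettis property and its quantitative form: definitions
-/

set_option autoImplicit false
open Filter Topology
open scoped ENNReal NNReal

namespace Q99.RD

/-- Weakly Cauchy sequences. -/
def WeaklyCauchy (𝕜 : Type) [RCLike 𝕜] {X : Type} [NormedAddCommGroup X] [NormedSpace 𝕜 X] (x : ℕ → X) : Prop :=
  ∀ f : StrongDual 𝕜 X, CauchySeq (fun n => f (x n))

/-- Completely continuous operators: weakly Cauchy sequences are mapped to norm Cauchy sequences. -/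
def CompletelyContinuous {𝕜 : Type} [RCLike 𝕜] {X Y : Type} [NormedAddCommGroup X] [NormedSpace 𝕜 X]
    [NormedAddCommGroup Y] [NormedSpace 𝕜 Y] (T : X →L[𝕜] Y) : Prop :=
  ∀ x : ℕ → X, WeaklyCauchy 𝕜 x → CauchySeq (fun n => T (x n))

/-- Weakly compact operators: the image of the closed unit ball is relatively weakly compact. -/
def WeaklyCompact {𝕜 : Type} [RCLike 𝕜] {X Y : Type} [NormedAddCommGroup X] [NormedSpace 𝕜 X]
    [NormedAddCommGroup Y] [NormedSpace 𝕜 Y] (T : X →L[𝕜] Y) : Prop :=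
  IsCompact (closure (toWeakSpace 𝕜 Y '' (T '' Metric.closedBall (0 : X) 1)))

/-- The reciprocal Dunford-Pettis property. -/
def RDPP (𝕜 : Type) [RCLike 𝕜] (X : Type) [NormedAddCommGroup X] [NormedSpace 𝕜 X] : Prop :=
  ∀ (Y : Type) [NormedAddCommGroup Y] [NormedSpace 𝕜 Y] [CompleteSpace Y] (T : X →L[𝕜] Y),
    CompletelyContinuous T → WeaklyCompact T

/-- `ca (y_k) = inf_n sup {‖y_k - y_l‖ : k, l ≥ n}`. -/
noncomputable def ca {Y : Type} [NormedAddCommGroup Y] (y : ℕ → Y) : ℝ≥0∞ :=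
  ⨅ n : ℕ, ⨆ (k : ℕ) (_ : n ≤ k) (l : ℕ) (_ : n ≤ l), edist (y k) (y l)

/-- `cc (T)` is the supremum of `ca (T x_k)` over the weakly Cauchy sequences `(x_k)` in the closed unit ball. -/
noncomputable def cc {𝕜 : Type} [RCLike 𝕜] {X Y : Type} [NormedAddCommGroup X] [NormedSpace 𝕜 X]
    [NormedAddCommGroup Y] [NormedSpace 𝕜 Y] (T : X →L[𝕜] Y) : ℝ≥0∞ :=
  ⨆ (x : ℕ → X) (_ : ∀ n, x n ∈ Metric.closedBall (0 : X) 1) (_ : WeaklyCauchy 𝕜 x), ca (fun n => T (x n))

/-- The weak* closure in the bidual of a subset of `Y`; the weak* topology is the topology of pointwise convergence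
on the dual. -/
def bidualClosure (𝕜 : Type) [RCLike 𝕜] {Y : Type} [NormedAddCommGroup Y] [NormedSpace 𝕜 Y] (A : Set Y) :
    Set (StrongDual 𝕜 (StrongDual 𝕜 Y)) :=
  {z | (fun f : StrongDual 𝕜 Y => z f) ∈ closure ((fun (y : Y) (f : StrongDual 𝕜 Y) => f y) '' A)}

/-- `wk (T)`: the supremum of the distances to `Y` of the points of the weak* closure of the image of the closed
unit ball. -/
noncomputable def wk {𝕜 : Type} [RCLike 𝕜] {X Y : Type} [NormedAddCommGroup X] [NormedSpace 𝕜 X]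
    [NormedAddCommGroup Y] [NormedSpace 𝕜 Y] (T : X →L[𝕜] Y) : ℝ≥0∞ :=
  ⨆ z ∈ bidualClosure 𝕜 (T '' Metric.closedBall (0 : X) 1),
    Metric.infEDist z (Set.range (NormedSpace.inclusionInDoubleDual 𝕜 Y))

/-- The quantitative reciprocal Dunford-Pettis property. -/
def QuantitativeRDPP (𝕜 : Type) [RCLike 𝕜] (X : Type) [NormedAddCommGroup X] [NormedSpace 𝕜 X] : Prop :=
  ∃ C : ℝ≥0, ∀ (Y : Type) [NormedAddCommGroup Y] [NormedSpace 𝕜 Y] [CompleteSpace Y] (T : X →L[𝕜] Y),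
    wk T ≤ C * cc T

end Q99.RD
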