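import Pool.Agent.Q99.RD.Sum

/-!
# A space with the reciprocal Dunford-Pettis property but not with the quantitative one
-/

set_option autoImplicit false
open Filter Topology
open scoped ENNReal NNReal

namespace Q99.RD

variable {𝕜 : Type} [RCLike 𝕜]

theorem WeaklyCauchy.map {X Y : Type} [NormedAddCommGroup X] [NormedSpace 𝕜 X] [NormedAddCommGroup Y]
    [NormedSpace 𝕜 Y] (S : X →L[𝕜] Y) {x : ℕ → X} (hx : WeaklyCauchy 𝕜 x) : WeaklyCauchy 𝕜 (fun n => S (x n)) :=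
  fun f => hx (f.comp S)

theorem CompletelyContinuous.comp {X Y Z : Type} [NormedAddCommGroup X] [NormedSpace 𝕜 X] [NormedAddCommGroup Y]
    [NormedSpace 𝕜 Y] [NormedAddCommGroup Z] [NormedSpace 𝕜 Z] {T : Y →L[𝕜] Z} (hT : CompletelyContinuous T)
    (S : X →L[𝕜] Y) : CompletelyContinuous (T.comp S) :=
  fun _ hx => hT _ (hx.map S)

/-- the embedding of `l_1` in the space of bounded functions on the set of the sequences of scalars of modulus at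
most one -/
theorem exists_JE (𝕜 : Type) [RCLike 𝕜] : ∃ J : L1 𝕜 →L[𝕜] LI 𝕜 (GS 𝕜), (∀ l s, J l s = psi s l) ∧ ∀ l, ‖J l‖ ≤ ‖l‖ := by
  have h1 : ∀ l : L1 𝕜, ∃ x : LI 𝕜 (GS 𝕜), (∀ s, x s = psi s l) ∧ ‖x‖ ≤ ‖l‖ :=
    fun l => exists_LI (fun s => psi s l) ‖l‖ (norm_nonneg _) (fun s => psi_le s l)
  choose J hJ1 hJ2 using h1
  let L : L1 𝕜 →ₗ[𝕜] LI 𝕜 (GS 𝕜) :=
    { toFun := J
      map_add' := fun l l' => by
        apply lp.ext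
        funext s
        show J (l + l') s = J l s + J l' s
        rw [hJ1, hJ1, hJ1, map_add]
      map_smul' := fun c l => by
        apply lp.ext
        funext s
        show J (c • l) s = c * J l s
        rw [hJ1, hJ1, map_smul, smul_eq_mul] }
  exact ⟨L.mkContinuous 1 fun l => by
    rw [one_mul]
    exact hJ2 l, hJ1, hJ2⟩

/-- the embedding -/
noncomputable def JE (𝕜 : Type) [RCLike 𝕜] : L1 𝕜 →L[𝕜] LI 𝕜 (GS 𝕜) := (exists_JE 𝕜).choose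
theorem JE_apply (l : L1 𝕜) (s : GS 𝕜) : JE 𝕜 l s = psi s l := (exists_JE 𝕜).choose_spec.1 l s
theorem JE_le (l : L1 𝕜) : ‖JE 𝕜 l‖ ≤ ‖l‖ := (exists_JE 𝕜).choose_spec.2 l

/-- the product of `l_1` and the space of bounded functions -/
abbrev PP (𝕜 : Type) [RCLike 𝕜] := L1 𝕜 × LI 𝕜 (GS 𝕜)

/-- the scalar `1 / (n + 1)` -/
noncomputable def sc (𝕜 : Type) [RCLike 𝕜] (n : ℕ) : 𝕜 := (((1 : ℝ) / (n + 1) : ℝ) : 𝕜)

theorem norm_sc (n : ℕ) : ‖sc 𝕜 n‖ = 1 / (n + 1) := by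
  unfold sc
  rw [RCLike.norm_ofReal, abs_of_nonneg (by positivity)]

theorem sc_ne (n : ℕ) : sc 𝕜 n ≠ 0 := by
  rw [← norm_ne_zero_iff, norm_sc]
  positivity

/-- the quotient maps -/
noncomputable def QQ (𝕜 : Type) [RCLike 𝕜] (n : ℕ) : PP 𝕜 →L[𝕜] LI 𝕜 (GS 𝕜) :=
  (JE 𝕜).comp (ContinuousLinearMap.fst 𝕜 _ _) + sc 𝕜 n • ContinuousLinearMap.snd 𝕜 _ _

theorem QQ_apply (n : ℕ) (p : PP 𝕜) : QQ 𝕜 n p = JE 𝕜 p.1 + sc 𝕜 n • p.2 := rfl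

theorem QQ_le (n : ℕ) (p : PP 𝕜) : ‖QQ 𝕜 n p‖ ≤ 2 * ‖p‖ := by
  rw [QQ_apply]
  have h1 : ‖p.1‖ ≤ ‖p‖ := norm_fst_le p
  have h2 : ‖p.2‖ ≤ ‖p‖ := norm_snd_le p
  have h3 : ‖sc 𝕜 n • p.2‖ ≤ ‖p.2‖ := by
    rw [norm_smul, norm_sc]
    have : (1 : ℝ) / (n + 1) ≤ 1 := by
      rw [div_le_one (by positivity)]
      have : (0 : ℝ) ≤ n := by positivity
      linarith
    nlinarith [norm_nonneg p.2]
  have h4 := JE_le p.1
  have h5 := norm_add_le (JE 𝕜 p.1) (sc 𝕜 n • p.2)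
  linarith

/-- the kernel -/
noncomputable def KK (𝕜 : Type) [RCLike 𝕜] : Submodule 𝕜 (L2S (PP 𝕜)) where
  carrier := {z | ∀ n, QQ 𝕜 n (z n) = 0}
  add_mem' := fun {a b} ha hb n => by
    show QQ 𝕜 n (a n + b n) = 0
    rw [map_add, ha n, hb n, add_zero]
  zero_mem' := fun n => map_zero _
  smul_mem' := fun c a ha n => by
    show QQ 𝕜 n (c • a n) = 0
    rw [map_smul, ha n, smul_zero]

theorem ev_continuous (n : ℕ) : Continuous (fun z : L2S (PP 𝕜) => z n) := by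
  have : Fact ((1 : ℝ≥0∞) ≤ 2) := ⟨by norm_num⟩
  exact (lp.evalCLM 𝕜 (fun _ : ℕ => PP 𝕜) 2 n).continuous

instance isClosed_KK : IsClosed (KK 𝕜 : Set (L2S (PP 𝕜))) := by
  have h : (KK 𝕜 : Set (L2S (PP 𝕜))) = ⋂ n, {z : L2S (PP 𝕜) | QQ 𝕜 n (z n) = 0} := by
    ext z
    rw [Set.mem_iInter]
    rfl
  rw [h]
  exact isClosed_iInter fun n => isClosed_eq ((QQ 𝕜 n).continuous.comp (ev_continuous n)) continuous_const

/-- the space -/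
def XX (𝕜 : Type) [RCLike 𝕜] : Type := L2S (PP 𝕜) ⧸ KK 𝕜

noncomputable instance : NormedAddCommGroup (XX 𝕜) := inferInstanceAs (NormedAddCommGroup (L2S (PP 𝕜) ⧸ KK 𝕜))
noncomputable instance : NormedSpace 𝕜 (XX 𝕜) := inferInstanceAs (NormedSpace 𝕜 (L2S (PP 𝕜) ⧸ KK 𝕜))
instance : CompleteSpace (XX 𝕜) := inferInstanceAs (CompleteSpace (L2S (PP 𝕜) ⧸ KK 𝕜))

/-- the quotient map -/
noncomputable def piX (𝕜 : Type) [RCLike 𝕜] : L2S (PP 𝕜) →L[𝕜] XX 𝕜 := (KK 𝕜).mkQL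

theorem piX_le (z : L2S (PP 𝕜)) : ‖piX 𝕜 z‖ ≤ ‖z‖ := Submodule.Quotient.norm_mk_le (KK 𝕜) z

theorem piX_surj (x : XX 𝕜) {ε : ℝ} (hε : 0 < ε) : ∃ z : L2S (PP 𝕜), piX 𝕜 z = x ∧ ‖z‖ < ‖x‖ + ε :=
  Submodule.Quotient.norm_mk_lt (S := KK 𝕜) x hε

theorem piX_eq {z w : L2S (PP 𝕜)} (h : z - w ∈ KK 𝕜) : piX 𝕜 z = piX 𝕜 w :=
  (Submodule.Quotient.eq (KK 𝕜)).2 h

theorem exists_RR (n : ℕ) : ∃ R : XX 𝕜 →L[𝕜] LI 𝕜 (GS 𝕜), ∀ z : L2S (PP 𝕜), R (piX 𝕜 z) = QQ 𝕜 n (z n) := by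
  let L0 : L2S (PP 𝕜) →ₗ[𝕜] LI 𝕜 (GS 𝕜) :=
    { toFun := fun z => QQ 𝕜 n (z n)
      map_add' := fun a b => by
        show QQ 𝕜 n (a n + b n) = _
        rw [map_add]
      map_smul' := fun c a => by
        show QQ 𝕜 n (c • a n) = _
        rw [map_smul]
        rfl }
  let L : (L2S (PP 𝕜) ⧸ KK 𝕜) →ₗ[𝕜] LI 𝕜 (GS 𝕜) := (KK 𝕜).liftQ L0 (fun z hz => hz n)
  have hL : ∀ x : XX 𝕜, ‖L x‖ ≤ 2 * ‖x‖ := by
    intro x
    apply le_of_forall_pos_le_add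
    intro ε hε
    obtain ⟨z, rfl, hz⟩ := piX_surj x (half_pos hε)
    have h1 : L (piX 𝕜 z) = QQ 𝕜 n (z n) := rfl
    rw [h1]
    refine (QQ_le n _).trans ?_
    have h2 : ‖z n‖ ≤ ‖z‖ := lp.norm_apply_le_norm (by norm_num) z n
    linarith
  exact ⟨LinearMap.mkContinuous (𝕜 := 𝕜) (E := XX 𝕜) (L : XX 𝕜 →ₗ[𝕜] LI 𝕜 (GS 𝕜)) 2 hL, fun z => rfl⟩

/-- the operators showing that the quantitative property fails -/
noncomputable def RR (𝕜 : Type) [RCLike 𝕜] (n : ℕ) : XX 𝕜 →L[𝕜] LI 𝕜 (GS 𝕜) := (exists_RR n).choose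
theorem RR_apply (n : ℕ) (z : L2S (PP 𝕜)) : RR 𝕜 n (piX 𝕜 z) = QQ 𝕜 n (z n) := (exists_RR n).choose_spec z

theorem sgl_self (n : ℕ) (p : PP 𝕜) : (sgl 𝕜 n p : L2S (PP 𝕜)) n = p :=
  lp.single_apply_self (E := fun _ : ℕ => PP 𝕜) 2 n p

theorem sgl_ne {n m : ℕ} (h : m ≠ n) (p : PP 𝕜) : (sgl 𝕜 n p : L2S (PP 𝕜)) m = 0 :=
  lp.single_apply_ne (E := fun _ : ℕ => PP 𝕜) 2 n p h

theorem piX_sgl (n : ℕ) (p : PP 𝕜) : piX 𝕜 (sgl 𝕜 n p) = piX 𝕜 (sgl 𝕜 n (0, (sc 𝕜 n)⁻¹ • QQ 𝕜 n p)) := by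
  apply piX_eq
  rw [← map_sub]
  intro m
  by_cases hm : m = n
  · subst hm
    rw [sgl_self, QQ_apply]
    show JE 𝕜 (p.1 - 0) + sc 𝕜 m • (p.2 - (sc 𝕜 m)⁻¹ • QQ 𝕜 m p) = 0
    rw [sub_zero, smul_sub, smul_smul, mul_inv_cancel₀ (sc_ne m), one_smul, QQ_apply]
    abel
  · rw [sgl_ne hm, map_zero]

theorem rdpp : RDPP 𝕜 (XX 𝕜) := by
  intro Y _ _ _ T hT
  apply UWC.weaklyCompact
  apply UWC.of_comp_surj (piX 𝕜) 1 (by
    intro x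
    obtain ⟨z, hz1, hz2⟩ := piX_surj x one_pos
    exact ⟨z, hz1, by linarith⟩)
  apply uwc_l2
  intro n
  -- the operator on the space of bounded functions
  let D : LI 𝕜 (GS 𝕜) →L[𝕜] PP 𝕜 := (sc 𝕜 n)⁻¹ • ContinuousLinearMap.inr 𝕜 _ _
  have h1 : (T.comp (piX 𝕜)).comp (sgl 𝕜 n) =
      (((T.comp (piX 𝕜)).comp (sgl 𝕜 n)).comp D).comp (QQ 𝕜 n) := by
    refine ContinuousLinearMap.ext fun p => ?_
    show T (piX 𝕜 (sgl 𝕜 n p)) = T (piX 𝕜 (sgl 𝕜 n ((sc 𝕜 n)⁻¹ • ((0 : L1 𝕜), QQ 𝕜 n p))))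
    rw [piX_sgl]
    congr 3
    rw [Prod.smul_mk, smul_zero]
  rw [h1]
  apply UWC.comp
  apply uwc_LI
  exact ((hT.comp (piX 𝕜)).comp (sgl 𝕜 n)).comp D

/-! ### the failure of the quantitative property -/

theorem evL_exists {Γ : Type} (t : Γ) : ∃ f : StrongDual 𝕜 (LI 𝕜 Γ), (∀ x, f x = x t) ∧ ‖f‖ ≤ 1 := by
  let L : LI 𝕜 Γ →ₗ[𝕜] 𝕜 :=
    { toFun := fun x => x t
      map_add' := fun _ _ => rfl
      map_smul' := fun _ _ => rfl }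
  have hL : ∀ x, ‖L x‖ ≤ 1 * ‖x‖ := fun x => by
    rw [one_mul]
    exact LI_apply_le x t
  exact ⟨L.mkContinuous 1 hL, fun _ => rfl, L.mkContinuous_norm_le zero_le_one hL⟩

theorem cc_RR (n : ℕ) : cc (RR 𝕜 n) ≤ ENNReal.ofReal (25 / (n + 1)) := by
  unfold cc
  refine iSup_le fun x => iSup_le fun hx => iSup_le fun hxc => ?_
  have h1 : ∀ k, ∃ z : L2S (PP 𝕜), piX 𝕜 z = x k ∧ ‖z‖ ≤ 2 := by
    intro k
    obtain ⟨z, hz1, hz2⟩ := piX_surj (x k) one_pos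
    have := hx k
    rw [mem_closedBall_zero_iff] at this
    exact ⟨z, hz1, by linarith⟩
  choose z hz1 hz2 using h1
  have hn0 : (0 : ℝ) < n + 1 := by positivity
  obtain ⟨l, hl⟩ : ∃ l : ℕ → L1 𝕜, l = fun k => (z k n).1 := ⟨_, rfl⟩
  obtain ⟨b, hb⟩ : ∃ b : ℕ → LI 𝕜 (GS 𝕜), b = fun k => (z k n).2 := ⟨_, rfl⟩
  have hb2 : ∀ k, ‖b k‖ ≤ 2 := by
    intro k
    rw [hb]
    exact (norm_snd_le _).trans ((lp.norm_apply_le_norm (by norm_num) (z k) n).trans (hz2 k))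
  have hR : ∀ k, RR 𝕜 n (x k) = JE 𝕜 (l k) + sc 𝕜 n • b k := by
    intro k
    rw [← hz1, RR_apply, QQ_apply, hl, hb]
  have hbd : ∀ k m, ‖sc 𝕜 n • (b k - b m)‖ ≤ 4 / (n + 1) := by
    intro k m
    rw [norm_smul, norm_sc]
    have h2 : ‖b k - b m‖ ≤ 4 := (norm_sub_le _ _).trans (by linarith [hb2 k, hb2 m])
    rw [div_mul_eq_mul_div, one_mul]
    gcongr
  have hosc : ∀ s : GS 𝕜, ∀ η : ℝ, 0 < η → ∃ N, ∀ k, N ≤ k → ∀ m, N ≤ m →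
      ‖psi s (l k - l m)‖ ≤ 4 / (n + 1) + η := by
    intro s η hη
    obtain ⟨f, hf1, hf2⟩ := evL_exists (𝕜 := 𝕜) s
    have h2 := hxc (f.comp (RR 𝕜 n))
    rw [Metric.cauchySeq_iff] at h2
    obtain ⟨N, hN⟩ := h2 η hη
    refine ⟨N, fun k hk m hm => ?_⟩
    have h3 := (hN k hk m hm).le
    rw [dist_eq_norm] at h3
    have h4 : psi s (l k - l m) = ((f.comp (RR 𝕜 n)) (x k) - (f.comp (RR 𝕜 n)) (x m)) - (sc 𝕜 n • (b k - b m)) s := by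
      show _ = (f (RR 𝕜 n (x k)) - f (RR 𝕜 n (x m))) - sc 𝕜 n * (b k s - b m s)
      rw [hf1, hf1, hR, hR]
      show _ = (JE 𝕜 (l k) s + sc 𝕜 n * b k s) - (JE 𝕜 (l m) s + sc 𝕜 n * b m s) - sc 𝕜 n * (b k s - b m s)
      rw [JE_apply, JE_apply, map_sub]
      ring
    rw [h4]
    refine (norm_sub_le _ _).trans ?_
    have h5 := (LI_apply_le (sc 𝕜 n • (b k - b m)) s).trans (hbd k m)
    linarith
  obtain ⟨N, hN⟩ := schur l (4 / (n + 1)) hosc (show 0 < 1 / ((n : ℝ) + 1) by positivity)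
  unfold ca
  refine (iInf_le _ N).trans (iSup_le fun k => iSup_le fun hk => iSup_le fun m => iSup_le fun hm => ?_)
  rw [edist_dist]
  apply ENNReal.ofReal_le_ofReal
  rw [dist_eq_norm]
  show ‖RR 𝕜 n (x k) - RR 𝕜 n (x m)‖ ≤ _
  rw [hR, hR]
  have h2 : JE 𝕜 (l k) + sc 𝕜 n • b k - (JE 𝕜 (l m) + sc 𝕜 n • b m) = JE 𝕜 (l k - l m) + sc 𝕜 n • (b k - b m) := by
    rw [map_sub, smul_sub]
    abel
  rw [h2]
  refine (norm_add_le _ _).trans ?_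
  have h3 := (JE_le (l k - l m)).trans (hN k hk m hm)
  have h4 := hbd k m
  have h5 : (25 : ℝ) / (n + 1) = 5 * (4 / (n + 1)) + 1 / (n + 1) + 4 / (n + 1) := by ring
  rw [h5]
  linarith

theorem exists_ulim {E : Type} [NormedAddCommGroup E] [NormedSpace 𝕜 E] (g : ℕ → StrongDual 𝕜 E)
    (hg : ∀ n, ‖g n‖ ≤ 1) :
    ∃ G : StrongDual 𝕜 E, ‖G‖ ≤ 1 ∧ ∀ x, Tendsto (fun n => g n x) (hyperfilter ℕ : Filter ℕ) (𝓝 (G x)) := by
  have hg' : ∀ n x, ‖g n x‖ ≤ ‖x‖ := fun n x => by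
    refine ((g n).le_opNorm x).trans ?_
    nlinarith [hg n, norm_nonneg x]
  have h1 : ∀ x, ∃ y : 𝕜, Tendsto (fun n => g n x) (hyperfilter ℕ : Filter ℕ) (𝓝 y) := by
    intro x
    have hc : IsCompact (Metric.closedBall (0 : 𝕜) ‖x‖) := isCompact_closedBall _ _
    obtain ⟨y, _, hy⟩ := hc.ultrafilter_le_nhds ((hyperfilter ℕ).map (fun n => g n x)) (by
      rw [Ultrafilter.coe_map, le_principal_iff, Filter.mem_map]
      exact Eventually.of_forall fun n => by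
        show g n x ∈ Metric.closedBall (0 : 𝕜) ‖x‖
        rw [mem_closedBall_zero_iff]
        exact hg' n x)
    exact ⟨y, hy⟩
  choose G hG using h1
  let L : E →ₗ[𝕜] 𝕜 :=
    { toFun := G
      map_add' := fun x y => tendsto_nhds_unique (hG (x + y))
        (((hG x).add (hG y)).congr fun n => (map_add (g n) x y).symm)
      map_smul' := fun c x => tendsto_nhds_unique (hG (c • x))
        (((hG x).const_smul c).congr fun n => (map_smul (g n) c x).symm) }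
  have hb : ∀ x, ‖L x‖ ≤ 1 * ‖x‖ := fun x => by
    rw [one_mul]
    exact le_of_tendsto (hG x).norm (Eventually.of_forall fun n => hg' n x)
  exact ⟨L.mkContinuous 1 hb, L.mkContinuous_norm_le zero_le_one hb, hG⟩

/-- the unit vectors of `l_1` -/
noncomputable def ee (𝕜 : Type) [RCLike 𝕜] (k : ℕ) : L1 𝕜 := lp.single 1 k (1 : 𝕜)

theorem norm_ee (k : ℕ) : ‖ee 𝕜 k‖ = 1 := by
  have h := lp.norm_single (E := fun _ : ℕ => 𝕜) (p := 1) (by norm_num) k (1 : 𝕜)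
  rw [norm_one] at h
  exact h

theorem psi_ee (s : GS 𝕜) (k : ℕ) : psi s (ee 𝕜 k) = s.1 k := by
  rw [psi_apply, tsum_eq_single k]
  · have : ee 𝕜 k k = 1 := lp.single_apply_self (E := fun _ : ℕ => 𝕜) 1 k (1 : 𝕜)
    rw [this, mul_one]
  · intro n hn
    have : ee 𝕜 k n = 0 := lp.single_apply_ne (E := fun _ : ℕ => 𝕜) 1 k (1 : 𝕜) hn
    rw [this, mul_zero]

open Classical in
/-- the sequences `1, ..., 1, -1, -1, ...` -/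
noncomputable def st (𝕜 : Type) [RCLike 𝕜] (m : ℕ) : GS 𝕜 :=
  ⟨fun k => if k ≤ m then 1 else -1, fun k => by
    show ‖(if k ≤ m then (1 : 𝕜) else -1)‖ ≤ 1
    split_ifs
    · rw [norm_one]
    · rw [norm_neg, norm_one]⟩

theorem hyp_ge (N : ℕ) : ∀ᶠ n in (hyperfilter ℕ : Filter ℕ), N ≤ n := by
  have h : (hyperfilter ℕ : Filter ℕ) ≤ atTop := by
    rw [← Nat.cofinite_eq_atTop]
    exact hyperfilter_le_cofinite
  exact h (eventually_ge_atTop N)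

theorem wk_RR (n : ℕ) : 1 ≤ wk (RR 𝕜 n) := by
  obtain ⟨x, hx⟩ : ∃ x : ℕ → XX 𝕜, x = fun k => piX 𝕜 (sgl 𝕜 n (ee 𝕜 k, 0)) := ⟨_, rfl⟩
  have hx1 : ∀ k, x k ∈ Metric.closedBall (0 : XX 𝕜) 1 := by
    intro k
    rw [mem_closedBall_zero_iff, hx]
    refine (piX_le _).trans ?_
    have h1 : ‖(sgl 𝕜 n ((ee 𝕜 k, 0) : PP 𝕜) : L2S (PP 𝕜))‖ = ‖((ee 𝕜 k, 0) : PP 𝕜)‖ :=
      lp.norm_single (E := fun _ : ℕ => PP 𝕜) (p := 2) (by norm_num) n _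
    show ‖(sgl 𝕜 n ((ee 𝕜 k, 0) : PP 𝕜) : L2S (PP 𝕜))‖ ≤ 1
    rw [h1, Prod.norm_def]
    show max ‖ee 𝕜 k‖ ‖(0 : LI 𝕜 (GS 𝕜))‖ ≤ 1
    rw [norm_ee, norm_zero]
    simp
  have hx2 : ∀ k, RR 𝕜 n (x k) = JE 𝕜 (ee 𝕜 k) := by
    intro k
    rw [hx]
    show RR 𝕜 n (piX 𝕜 (sgl 𝕜 n (ee 𝕜 k, 0))) = _
    rw [RR_apply, sgl_self, QQ_apply]
    show JE 𝕜 (ee 𝕜 k) + sc 𝕜 n • (0 : LI 𝕜 (GS 𝕜)) = _
    rw [smul_zero, add_zero]
  obtain ⟨z, hz⟩ := exists_limit (RR 𝕜 n) 1 ((hyperfilter ℕ).map x) (by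
    rw [Ultrafilter.mem_map]
    exact Filter.univ_mem' hx1)
  have hz' : ∀ f : StrongDual 𝕜 (LI 𝕜 (GS 𝕜)),
      Tendsto (fun k => f (JE 𝕜 (ee 𝕜 k))) (hyperfilter ℕ : Filter ℕ) (𝓝 (z f)) := by
    intro f
    have h1 := hz f
    rw [Ultrafilter.coe_map, tendsto_map'_iff] at h1
    refine h1.congr fun k => ?_
    show f (RR 𝕜 n (x k)) = _
    rw [hx2]
  have hzc : z ∈ bidualClosure 𝕜 (RR 𝕜 n '' Metric.closedBall (0 : XX 𝕜) 1) := by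
    have h1 : Tendsto (fun k (f : StrongDual 𝕜 (LI 𝕜 (GS 𝕜))) => f (JE 𝕜 (ee 𝕜 k))) (hyperfilter ℕ : Filter ℕ)
        (𝓝 (fun f => z f)) := by
      rw [tendsto_pi_nhds]
      exact hz'
    refine mem_closure_of_tendsto h1 (Filter.Eventually.of_forall fun k => ?_)
    refine ⟨JE 𝕜 (ee 𝕜 k), ⟨x k, hx1 k, hx2 k⟩, rfl⟩
  refine le_trans ?_ (le_iSup₂ (f := fun (z : StrongDual 𝕜 (StrongDual 𝕜 (LI 𝕜 (GS 𝕜))))
    (_ : z ∈ bidualClosure 𝕜 (RR 𝕜 n '' Metric.closedBall (0 : XX 𝕜) 1)) =>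
    Metric.infEDist z (Set.range (NormedSpace.inclusionInDoubleDual 𝕜 (LI 𝕜 (GS 𝕜))))) z hzc)
  rw [Metric.le_infEDist]
  rintro _ ⟨w, rfl⟩
  -- the functionals of evaluation
  have hev := fun s : GS 𝕜 => evL_exists (𝕜 := 𝕜) s
  choose ev hev1 hev2 using hev
  obtain ⟨G, hG1, hG2⟩ := exists_ulim (fun m => ev (st 𝕜 m)) (fun m => hev2 _)
  obtain ⟨r, hr⟩ : ∃ r : ℝ, r = ‖z - NormedSpace.inclusionInDoubleDual 𝕜 (LI 𝕜 (GS 𝕜)) w‖ := ⟨_, rfl⟩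
  have hr1 : ∀ f : StrongDual 𝕜 (LI 𝕜 (GS 𝕜)), ‖f‖ ≤ 1 → ‖z f - f w‖ ≤ r := by
    intro f hf
    have h1 := (z - NormedSpace.inclusionInDoubleDual 𝕜 (LI 𝕜 (GS 𝕜)) w).le_opNorm f
    rw [← hr] at h1
    refine le_trans h1 ?_
    have h2 : 0 ≤ r := by
      rw [hr]
      exact norm_nonneg (z - NormedSpace.inclusionInDoubleDual 𝕜 (LI 𝕜 (GS 𝕜)) w)
    nlinarith
  have h1 : ∀ m, z (ev (st 𝕜 m)) = -1 := by
    intro m
    refine tendsto_nhds_unique (hz' (ev (st 𝕜 m))) ?_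
    refine tendsto_const_nhds.congr' ?_
    filter_upwards [hyp_ge (m + 1)] with k hk
    rw [hev1, JE_apply, psi_ee]
    show (-1 : 𝕜) = if k ≤ m then 1 else -1
    rw [if_neg (by omega)]
  have h2 : z G = 1 := by
    refine tendsto_nhds_unique (hz' G) ?_
    refine tendsto_const_nhds.congr fun k => ?_
    refine tendsto_nhds_unique ?_ (hG2 (JE 𝕜 (ee 𝕜 k)))
    refine tendsto_const_nhds.congr' ?_
    filter_upwards [hyp_ge k] with m hm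
    rw [hev1, JE_apply, psi_ee]
    show (1 : 𝕜) = if k ≤ m then 1 else -1
    rw [if_pos hm]
  have h3 : ‖(1 : 𝕜) - G w‖ ≤ r := by
    rw [← h2]
    exact hr1 G hG1
  have h4 : ‖(-1 : 𝕜) - G w‖ ≤ r := by
    have h5 : Tendsto (fun m => ‖(-1 : 𝕜) - ev (st 𝕜 m) w‖) (hyperfilter ℕ : Filter ℕ) (𝓝 ‖(-1 : 𝕜) - G w‖) :=
      (tendsto_const_nhds.sub (hG2 w)).norm
    refine le_of_tendsto h5 (Filter.Eventually.of_forall fun m => ?_)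
    show ‖(-1 : 𝕜) - ev (st 𝕜 m) w‖ ≤ r
    rw [← h1 m]
    exact hr1 _ (hev2 _)
  have h5 : (1 : ℝ) ≤ r := by
    have h6 : (2 : 𝕜) = ((1 : 𝕜) - G w) - ((-1 : 𝕜) - G w) := by ring
    have h7 : (2 : ℝ) = ‖(2 : 𝕜)‖ := (RCLike.norm_ofNat 2).symm
    have h8 : ‖(2 : 𝕜)‖ ≤ r + r := by
      rw [h6]
      exact (norm_sub_le _ _).trans (add_le_add h3 h4)
    linarith
  rw [edist_dist, dist_eq_norm, ← hr]
  rw [← ENNReal.ofReal_one]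
  exact ENNReal.ofReal_le_ofReal h5

theorem not_quantitative : ¬ QuantitativeRDPP 𝕜 (XX 𝕜) := by
  rintro ⟨C, hC⟩
  obtain ⟨n, hn⟩ := exists_nat_gt (C * 25 : ℝ)
  have h1 := (wk_RR (𝕜 := 𝕜) n).trans ((hC (LI 𝕜 (GS 𝕜)) (RR 𝕜 n)).trans (mul_le_mul_right (cc_RR n) _))
  have h2 : (C : ℝ≥0∞) * ENNReal.ofReal (25 / (n + 1)) = ENNReal.ofReal (C * (25 / (n + 1))) := by
    rw [ENNReal.ofReal_mul (NNReal.coe_nonneg C), ENNReal.ofReal_coe_nnreal]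
  rw [h2] at h1
  have h3 : (1 : ℝ) ≤ C * (25 / (n + 1)) := by
    have h4 := ENNReal.toReal_mono ENNReal.ofReal_ne_top h1
    rw [ENNReal.toReal_ofReal (by positivity)] at h4
    simpa using h4
  rw [mul_div_assoc', le_div_iff₀ (by positivity)] at h3
  linarith

end Q99.RD
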