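import Pool.Agent.Q99.RD.Ctrl

/-!
# A quantitative Schur property of `l_1`
-/

set_option autoImplicit false
open Filter Topology Finset
open scoped ENNReal NNReal

namespace Q99.RD

variable {𝕜 : Type} [RCLike 𝕜]

/-- the space `l_1` -/
abbrev L1 (𝕜 : Type) [RCLike 𝕜] := lp (fun _ : ℕ => 𝕜) 1

/-- sequences of scalars of modulus at most one -/
abbrev GS (𝕜 : Type) [RCLike 𝕜] := {s : ℕ → 𝕜 // ∀ n, ‖s n‖ ≤ 1}

theorem L1_hasSum (x : L1 𝕜) : HasSum (fun n => ‖x n‖) ‖x‖ := by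
  have h := lp.hasSum_norm (p := 1) (by norm_num) x
  simpa using h

theorem L1_sum_le (x : L1 𝕜) (S : Finset ℕ) : ∑ n ∈ S, ‖x n‖ ≤ ‖x‖ :=
  sum_le_hasSum S (fun n _ => norm_nonneg _) (L1_hasSum x)

theorem L1_summable (s : GS 𝕜) (x : L1 𝕜) : Summable (fun n => s.1 n * x n) := by
  apply Summable.of_norm
  refine (L1_hasSum x).summable.of_nonneg_of_le (fun n => norm_nonneg _) fun n => ?_
  rw [norm_mul]
  nlinarith [s.2 n, norm_nonneg (x n)]

theorem exists_psi (s : GS 𝕜) : ∃ f : StrongDual 𝕜 (L1 𝕜), (∀ x, f x = ∑' n, s.1 n * x n) ∧ ‖f‖ ≤ 1 := by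
  let L : L1 𝕜 →ₗ[𝕜] 𝕜 :=
    { toFun := fun x => ∑' n, s.1 n * x n
      map_add' := fun x y => by
        rw [← (L1_summable s x).tsum_add (L1_summable s y)]
        congr 1
        funext n
        show s.1 n * (x n + y n) = _
        ring
      map_smul' := fun c x => by
        rw [RingHom.id_apply, smul_eq_mul, ← tsum_mul_left]
        congr 1
        funext n
        show s.1 n * (c * x n) = _
        ring }
  have hL : ∀ x, ‖L x‖ ≤ 1 * ‖x‖ := by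
    intro x
    rw [one_mul]
    show ‖∑' n, s.1 n * x n‖ ≤ ‖x‖
    refine tsum_of_norm_bounded (L1_hasSum x) fun n => ?_
    rw [norm_mul]
    nlinarith [s.2 n, norm_nonneg (x n)]
  exact ⟨L.mkContinuous 1 hL, fun x => rfl, L.mkContinuous_norm_le zero_le_one hL⟩

/-- the functional given by a bounded sequence -/
noncomputable def psi (s : GS 𝕜) : StrongDual 𝕜 (L1 𝕜) := (exists_psi s).choose
theorem psi_apply (s : GS 𝕜) (x : L1 𝕜) : psi s x = ∑' n, s.1 n * x n := (exists_psi s).choose_spec.1 x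
theorem psi_le (s : GS 𝕜) (x : L1 𝕜) : ‖psi s x‖ ≤ ‖x‖ := by
  refine ((psi s).le_opNorm x).trans ?_
  have := (exists_psi s).choose_spec.2
  have h : ‖psi s‖ ≤ 1 := this
  nlinarith [norm_nonneg x]

theorem psi_tail (s : GS 𝕜) (x : L1 𝕜) (N : ℕ) :
    ‖psi s x - ∑ n ∈ range N, s.1 n * x n‖ ≤ ‖x‖ - ∑ n ∈ range N, ‖x n‖ := by
  have h1 : HasSum (fun n => s.1 (n + N) * x (n + N)) (psi s x - ∑ n ∈ range N, s.1 n * x n) := by
    rw [psi_apply]
    exact (hasSum_nat_add_iff' N).2 (L1_summable s x).hasSum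
  have h2 : HasSum (fun n => ‖x (n + N)‖) (‖x‖ - ∑ n ∈ range N, ‖x n‖) :=
    (hasSum_nat_add_iff' N).2 (L1_hasSum x)
  rw [← h1.tsum_eq]
  refine tsum_of_norm_bounded h2 fun n => ?_
  rw [norm_mul]
  nlinarith [s.2 (n + N), norm_nonneg (x (n + N))]

theorem L1_tail (x : L1 𝕜) {η : ℝ} (hη : 0 < η) : ∃ N, ∀ M, N ≤ M → ‖x‖ - ∑ n ∈ range M, ‖x n‖ ≤ η := by
  have h := (L1_hasSum x).tendsto_sum_nat
  rw [Metric.tendsto_atTop] at h
  obtain ⟨N, hN⟩ := h η hη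
  refine ⟨N, fun M hM => ?_⟩
  have := hN M hM
  rw [Real.dist_eq] at this
  have h2 := neg_abs_le (∑ n ∈ range M, ‖x n‖ - ‖x‖)
  linarith

theorem re_im_le (z : 𝕜) : ‖z‖ ≤ |RCLike.re z| + |RCLike.im z| := by
  have h1 := RCLike.re_add_im z
  calc ‖z‖ = ‖(RCLike.re z : 𝕜) + (RCLike.im z : 𝕜) * RCLike.I‖ := by rw [h1]
    _ ≤ ‖(RCLike.re z : 𝕜)‖ + ‖(RCLike.im z : 𝕜) * RCLike.I‖ := norm_add_le _ _
    _ ≤ |RCLike.re z| + |RCLike.im z| := by
      rw [norm_mul, RCLike.norm_ofReal, RCLike.norm_ofReal]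
      have h2 : ‖(RCLike.I : 𝕜)‖ ≤ 1 := by
        rcases RCLike.I_eq_zero_or_im_I_eq_one (K := 𝕜) with h | h
        · rw [h, norm_zero]
          exact zero_le_one
        · have h3 := RCLike.norm_I_of_ne_zero (K := 𝕜) (fun h0 => by
            rw [h0] at h
            simp at h)
          exact h3.le
      nlinarith [abs_nonneg (RCLike.im z)]

open Classical in
/-- sign sequences -/
noncomputable def sg (𝕜 : Type) [RCLike 𝕜] (M : ℕ) (P : Finset ℕ) : GS 𝕜 :=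
  ⟨fun n => if n < M then (if n ∈ P then 1 else -1) else 0, fun n => by
    show ‖(if n < M then (if n ∈ P then (1 : 𝕜) else -1) else 0)‖ ≤ 1
    split_ifs
    · rw [norm_one]
    · rw [norm_neg, norm_one]
    · rw [norm_zero]
      exact zero_le_one⟩

theorem psi_sg (M : ℕ) (P : Finset ℕ) (x : L1 𝕜) :
    psi (sg 𝕜 M P) x = ∑ n ∈ range M, (if n ∈ P then x n else - x n) := by
  rw [psi_apply]
  rw [tsum_eq_sum (s := range M)]
  · apply Finset.sum_congr rfl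
    intro n hn
    rw [Finset.mem_range] at hn
    show (if n < M then (if n ∈ P then (1 : 𝕜) else -1) else 0) * x n = _
    rw [if_pos hn]
    split_ifs
    · rw [one_mul]
    · ring
  · intro n hn
    rw [Finset.mem_range] at hn
    show (if n < M then (if n ∈ P then (1 : 𝕜) else -1) else 0) * x n = _
    rw [if_neg hn, zero_mul]

theorem finite_part (l : ℕ → L1 𝕜) (δ : ℝ)
    (h : ∀ s : GS 𝕜, ∀ η : ℝ, 0 < η → ∃ N, ∀ k, N ≤ k → ∀ m, N ≤ m → ‖psi s (l k - l m)‖ ≤ δ + η) (M : ℕ)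
    {η : ℝ} (hη : 0 < η) : ∃ N, ∀ k, N ≤ k → ∀ m, N ≤ m → ∑ i ∈ range M, ‖(l k - l m) i‖ ≤ 2 * δ + η := by
  classical
  have h1 : ∀ P : Finset ℕ, ∃ N, ∀ k, N ≤ k → ∀ m, N ≤ m → ‖psi (sg 𝕜 M P) (l k - l m)‖ ≤ δ + η / 2 :=
    fun P => h (sg 𝕜 M P) (η / 2) (half_pos hη)
  choose N hN using h1
  refine ⟨(range M).powerset.sup N, fun k hk m hm => ?_⟩
  obtain ⟨x, hx⟩ : ∃ x : L1 𝕜, x = l k - l m := ⟨_, rfl⟩
  rw [← hx]
  have key : ∀ P ⊆ range M, ‖∑ n ∈ range M, (if n ∈ P then x n else - x n)‖ ≤ δ + η / 2 := by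
    intro P hP
    have h2 : N P ≤ (range M).powerset.sup N := Finset.le_sup (Finset.mem_powerset.2 hP)
    rw [← psi_sg, hx]
    exact hN P k (h2.trans hk) m (h2.trans hm)
  have h2 : ∑ n ∈ range M, |RCLike.re (x n)| ≤ δ + η / 2 := by
    refine le_trans ?_ (key ((range M).filter (fun n => 0 ≤ RCLike.re (x n))) (Finset.filter_subset _ _))
    refine le_trans (le_of_eq ?_) (RCLike.re_le_norm _)
    rw [map_sum]
    apply Finset.sum_congr rfl
    intro n hn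
    by_cases h0 : 0 ≤ RCLike.re (x n)
    · rw [if_pos (Finset.mem_filter.2 ⟨hn, h0⟩), abs_of_nonneg h0]
    · have h4 : n ∉ (range M).filter (fun n => 0 ≤ RCLike.re (x n)) := fun h => h0 (Finset.mem_filter.1 h).2
      rw [if_neg h4, map_neg]
      push Not at h0
      exact abs_of_neg h0
  have h3 : ∑ n ∈ range M, |RCLike.im (x n)| ≤ δ + η / 2 := by
    refine le_trans ?_ (key ((range M).filter (fun n => 0 ≤ RCLike.im (x n))) (Finset.filter_subset _ _))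
    refine le_trans (le_of_eq ?_) (RCLike.im_le_norm _)
    rw [map_sum]
    apply Finset.sum_congr rfl
    intro n hn
    by_cases h0 : 0 ≤ RCLike.im (x n)
    · rw [if_pos (Finset.mem_filter.2 ⟨hn, h0⟩), abs_of_nonneg h0]
    · have h4 : n ∉ (range M).filter (fun n => 0 ≤ RCLike.im (x n)) := fun h => h0 (Finset.mem_filter.1 h).2
      rw [if_neg h4, map_neg]
      push Not at h0
      exact abs_of_neg h0
  calc ∑ i ∈ range M, ‖x i‖ ≤ ∑ i ∈ range M, (|RCLike.re (x i)| + |RCLike.im (x i)|) :=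
        Finset.sum_le_sum fun i _ => re_im_le (x i)
    _ = ∑ i ∈ range M, |RCLike.re (x i)| + ∑ i ∈ range M, |RCLike.im (x i)| := Finset.sum_add_distrib
    _ ≤ 2 * δ + η := by linarith

theorem exists_phase (z : 𝕜) : ∃ c : 𝕜, ‖c‖ ≤ 1 ∧ c * z = (‖z‖ : 𝕜) := by
  by_cases hz : z = 0
  · exact ⟨0, by rw [norm_zero]; exact zero_le_one, by rw [hz, norm_zero, mul_zero, RCLike.ofReal_zero]⟩
  · refine ⟨(‖z‖ : 𝕜) / z, ?_, div_mul_cancel₀ _ hz⟩
    rw [norm_div, RCLike.norm_ofReal, abs_norm, div_self (norm_ne_zero_iff.2 hz)]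

theorem schur (l : ℕ → L1 𝕜) (δ : ℝ)
    (h : ∀ s : GS 𝕜, ∀ η : ℝ, 0 < η → ∃ N, ∀ k, N ≤ k → ∀ m, N ≤ m → ‖psi s (l k - l m)‖ ≤ δ + η)
    {η : ℝ} (hη : 0 < η) : ∃ N, ∀ k, N ≤ k → ∀ m, N ≤ m → ‖l k - l m‖ ≤ 5 * δ + η := by
  classical
  by_contra hc
  push Not at hc
  have step : ∀ j M : ℕ, ∃ k m M', j ≤ k ∧ j ≤ m ∧ M < M' ∧ 5 * δ + η < ‖l k - l m‖ ∧
      ∑ i ∈ range M, ‖(l k - l m) i‖ ≤ 2 * δ + η / 8 ∧ ‖l k - l m‖ - ∑ i ∈ range M', ‖(l k - l m) i‖ ≤ η / 8 := by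
    intro j M
    obtain ⟨N, hN⟩ := finite_part l δ h M (show 0 < η / 8 by positivity)
    obtain ⟨k, hk, m, hm, hkm⟩ := hc (max N j)
    obtain ⟨N', hN'⟩ := L1_tail (l k - l m) (show 0 < η / 8 by positivity)
    exact ⟨k, m, max N' (M + 1), (le_max_right _ _).trans hk, (le_max_right _ _).trans hm,
      lt_of_lt_of_le (Nat.lt_succ_self M) (le_max_right _ _), hkm,
      hN k ((le_max_left _ _).trans hk) m ((le_max_left _ _).trans hm), hN' _ (le_max_left _ _)⟩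
  choose fk fm fM a1 a2 a3 a4 a5 a6 using step
  obtain ⟨M, hM0, hMs⟩ : ∃ M : ℕ → ℕ, M 0 = 0 ∧ ∀ j, M (j + 1) = fM j (M j) :=
    ⟨fun n => Nat.rec 0 (fun j m => fM j m) n, rfl, fun n => rfl⟩
  have hMm : StrictMono M := strictMono_nat_of_lt_succ fun j => by
    rw [hMs]
    exact a3 _ _
  obtain ⟨u, hu⟩ : ∃ u : ℕ → L1 𝕜, u = fun j => l (fk j (M j)) - l (fm j (M j)) := ⟨_, rfl⟩
  have u1 : ∀ j, 5 * δ + η < ‖u j‖ := fun j => by rw [hu]; exact a4 _ _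
  have u2 : ∀ j, ∑ i ∈ range (M j), ‖u j i‖ ≤ 2 * δ + η / 8 := fun j => by rw [hu]; exact a5 _ _
  have u3 : ∀ j, ‖u j‖ - ∑ i ∈ range (M (j + 1)), ‖u j i‖ ≤ η / 8 := fun j => by rw [hu, hMs]; exact a6 _ _
  -- the blocks
  have hblock : ∀ i, ∃ j, M j ≤ i ∧ i < M (j + 1) := by
    intro i
    have hex : ∃ j, i < M (j + 1) := ⟨i, (Nat.lt_succ_self i).trans_le (hMm.id_le (i + 1))⟩
    refine ⟨Nat.find hex, ?_, Nat.find_spec hex⟩
    rcases Nat.eq_zero_or_pos (Nat.find hex) with h0 | h0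
    · rw [h0, hM0]
      exact Nat.zero_le _
    · have h1 := Nat.find_min hex (m := Nat.find hex - 1) (by omega)
      rw [Nat.sub_add_cancel h0] at h1
      exact not_lt.1 h1
  choose b hb1 hb2 using hblock
  have hbu : ∀ i j, M j ≤ i → i < M (j + 1) → b i = j := by
    intro i j h1 h2
    rcases lt_trichotomy (b i) j with h3 | h3 | h3
    · have := hMm.monotone (Nat.succ_le_of_lt h3)
      have h4 := hb2 i
      have h5 : M (b i + 1) ≤ M j := this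
      omega
    · exact h3
    · have := hMm.monotone (Nat.succ_le_of_lt h3)
      have h4 := hb1 i
      have h5 : M (j + 1) ≤ M (b i) := this
      omega
  have hph : ∀ z : 𝕜, ∃ c : 𝕜, ‖c‖ ≤ 1 ∧ c * z = (‖z‖ : 𝕜) := exists_phase
  choose ph ph1 ph2 using hph
  let s : GS 𝕜 := ⟨fun i => ph (u (b i) i), fun i => ph1 _⟩
  have hs : ∀ j, δ + η / 2 ≤ ‖psi s (u j)‖ := by
    intro j
    have e1 := psi_tail s (u j) (M (j + 1))
    have e2 : ∑ i ∈ range (M (j + 1)), s.1 i * u j i =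
        ∑ i ∈ range (M j), s.1 i * u j i + ((∑ i ∈ Finset.Ico (M j) (M (j + 1)), ‖u j i‖ : ℝ) : 𝕜) := by
      rw [← Finset.sum_range_add_sum_Ico _ (hMm (Nat.lt_succ_self j)).le, RCLike.ofReal_sum]
      congr 1
      apply Finset.sum_congr rfl
      intro i hi
      rw [Finset.mem_Ico] at hi
      show ph (u (b i) i) * u j i = _
      rw [hbu i j hi.1 hi.2, ph2]
    have e3 : ‖∑ i ∈ range (M j), s.1 i * u j i‖ ≤ 2 * δ + η / 8 := by
      refine (norm_sum_le _ _).trans (le_trans (Finset.sum_le_sum fun i _ => ?_) (u2 j))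
      rw [norm_mul]
      nlinarith [s.2 i, norm_nonneg (u j i)]
    have e4 : ∑ i ∈ range (M (j + 1)), ‖u j i‖ =
        ∑ i ∈ range (M j), ‖u j i‖ + ∑ i ∈ Finset.Ico (M j) (M (j + 1)), ‖u j i‖ :=
      (Finset.sum_range_add_sum_Ico _ (hMm (Nat.lt_succ_self j)).le).symm
    have e5 : 0 ≤ ∑ i ∈ Finset.Ico (M j) (M (j + 1)), ‖u j i‖ := Finset.sum_nonneg fun i _ => norm_nonneg _
    have e6 : ∑ i ∈ Finset.Ico (M j) (M (j + 1)), ‖u j i‖ ≤
        ‖psi s (u j)‖ + ‖psi s (u j) - ∑ i ∈ range (M (j + 1)), s.1 i * u j i‖ +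
          ‖∑ i ∈ range (M j), s.1 i * u j i‖ := by
      have e7 : ((∑ i ∈ Finset.Ico (M j) (M (j + 1)), ‖u j i‖ : ℝ) : 𝕜) =
          psi s (u j) - (psi s (u j) - ∑ i ∈ range (M (j + 1)), s.1 i * u j i) -
            ∑ i ∈ range (M j), s.1 i * u j i := by
        rw [e2]
        ring
      have e8 : ‖((∑ i ∈ Finset.Ico (M j) (M (j + 1)), ‖u j i‖ : ℝ) : 𝕜)‖ =
          ∑ i ∈ Finset.Ico (M j) (M (j + 1)), ‖u j i‖ := by
        rw [RCLike.norm_ofReal, abs_of_nonneg e5]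
      rw [← e8, e7]
      exact (norm_sub_le _ _).trans (add_le_add (norm_sub_le _ _) le_rfl)
    have e9 := u1 j
    have e10 := u2 j
    have e11 := u3 j
    linarith
  obtain ⟨N, hN⟩ := h s (η / 4) (by positivity)
  have h1 := hN (fk N (M N)) (a1 _ _) (fm N (M N)) (a2 _ _)
  have h2 := hs N
  rw [hu] at h2
  linarith

end Q99.RD
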