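import Pool.Agent.Q99.RD.Schur

/-!
# Weakly compact operators on `l_2`-sums
-/

set_option autoImplicit false
open Filter Topology Finset
open scoped ENNReal NNReal

namespace Q99.RD

variable {𝕜 : Type} [RCLike 𝕜] {P : Type} [NormedAddCommGroup P] [NormedSpace 𝕜 P]
  {Y : Type} [NormedAddCommGroup Y] [NormedSpace 𝕜 Y]

/-- the `l_2`-sum of countably many copies -/
abbrev L2S (P : Type) [NormedAddCommGroup P] := lp (fun _ : ℕ => P) 2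

/-- the embedding of a summand -/
noncomputable def sgl (𝕜 : Type) [RCLike 𝕜] {P : Type} [NormedAddCommGroup P] [NormedSpace 𝕜 P] (n : ℕ) :
    P →L[𝕜] L2S P :=
  haveI : Fact ((1 : ℝ≥0∞) ≤ 2) := ⟨by norm_num⟩
  lp.singleContinuousLinearMap 𝕜 (fun _ : ℕ => P) 2 n

theorem sgl_apply (n : ℕ) (p : P) : sgl 𝕜 n p = lp.single 2 n p := rfl

theorem sum_sq_le (z : L2S P) (G : Finset ℕ) : ∑ n ∈ G, ‖z n‖ ^ 2 ≤ ‖z‖ ^ 2 := by
  have h := lp.sum_rpow_le_norm_rpow (p := 2) (by norm_num) z G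
  simpa using h

theorem norm_sum_sgl (p : ℕ → P) (G : Finset ℕ) : ‖∑ n ∈ G, sgl 𝕜 n (p n)‖ ^ 2 = ∑ n ∈ G, ‖p n‖ ^ 2 := by
  have h := lp.norm_sum_single (E := fun _ : ℕ => P) (p := 2) (by norm_num) p G
  have h2 : ‖∑ i ∈ G, lp.single (E := fun _ : ℕ => P) 2 i (p i)‖ ^ 2 = ∑ n ∈ G, ‖p n‖ ^ 2 := by simpa using h
  exact h2

theorem hasSum_sgl (z : L2S P) : HasSum (fun n => sgl 𝕜 n (z n)) z :=
  lp.hasSum_single (by norm_num) z

/-- the tails of a functional are small -/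
theorem functional_tail (φ : StrongDual 𝕜 (L2S P)) {ε : ℝ} (hε : 0 < ε) :
    ∃ F : Finset ℕ, ∀ z : L2S P, ‖φ z - ∑ n ∈ F, φ (sgl 𝕜 n (z n))‖ ≤ ε * ‖z‖ := by
  classical
  obtain ⟨b, hb⟩ : ∃ b : ℕ → ℝ, b = fun n => ‖φ.comp (sgl 𝕜 n)‖ := ⟨_, rfl⟩
  have hb0 : ∀ n, 0 ≤ b n := fun n => by rw [hb]; exact norm_nonneg _
  have hbp : ∀ n (p : P), ‖φ (sgl 𝕜 n p)‖ ≤ b n * ‖p‖ := fun n p => by
    rw [hb]
    exact (φ.comp (sgl 𝕜 n)).le_opNorm p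
  -- almost norming vectors
  have h1 : ∀ n, ∃ u : P, ‖u‖ ≤ 1 ∧ b n / 2 ≤ ‖φ (sgl 𝕜 n u)‖ := by
    intro n
    by_cases h0 : b n = 0
    · exact ⟨0, by rw [norm_zero]; exact zero_le_one, by rw [h0]; simp⟩
    · have h2 : b n / 2 < ‖φ.comp (sgl 𝕜 n)‖ := by
        have h3 : b n / 2 < b n := half_lt_self (lt_of_le_of_ne (hb0 n) (Ne.symm h0))
        rw [hb] at h3 ⊢
        exact h3
      obtain ⟨u, hu1, hu2⟩ := (φ.comp (sgl 𝕜 n)).exists_lt_apply_of_lt_opNorm h2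
      exact ⟨u, hu1.le, hu2.le⟩
  choose u hu1 hu2 using h1
  have h2 : ∀ n, ∃ c : 𝕜, ‖c‖ = 1 ∧ φ (sgl 𝕜 n (c • u n)) = (‖φ (sgl 𝕜 n (u n))‖ : 𝕜) := by
    intro n
    obtain ⟨c, hc1, hc2⟩ := exists_rot (φ.comp (sgl 𝕜 n)) (u n)
    exact ⟨c, hc1, hc2⟩
  choose c hc1 hc2 using h2
  have hsum : ∀ G : Finset ℕ, ∑ n ∈ G, b n ^ 2 ≤ (2 * ‖φ‖) ^ 2 := by
    intro G
    obtain ⟨s, hs⟩ : ∃ s : ℝ, s = ∑ n ∈ G, b n ^ 2 := ⟨_, rfl⟩
    have hs0 : 0 ≤ s := by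
      rw [hs]
      exact Finset.sum_nonneg fun n _ => sq_nonneg _
    obtain ⟨w, hw⟩ : ∃ w : L2S P, w = ∑ n ∈ G, sgl 𝕜 n ((b n : 𝕜) • (c n • u n)) := ⟨_, rfl⟩
    have hwn : ‖w‖ ^ 2 ≤ s := by
      rw [hw, norm_sum_sgl, hs]
      apply Finset.sum_le_sum
      intro n _
      rw [norm_smul, norm_smul, hc1, one_mul, RCLike.norm_ofReal, abs_of_nonneg (hb0 n), mul_pow]
      have : ‖u n‖ ^ 2 ≤ 1 := by
        have := hu1 n
        nlinarith [norm_nonneg (u n)]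
      nlinarith [sq_nonneg (b n)]
    have hφw : φ w = ((∑ n ∈ G, b n * ‖φ (sgl 𝕜 n (u n))‖ : ℝ) : 𝕜) := by
      rw [hw, map_sum, RCLike.ofReal_sum]
      apply Finset.sum_congr rfl
      intro n _
      rw [map_smul, map_smul, hc2, smul_eq_mul, RCLike.ofReal_mul]
    have h3 := φ.le_opNorm w
    rw [hφw, RCLike.norm_ofReal, abs_of_nonneg (Finset.sum_nonneg fun n _ =>
      mul_nonneg (hb0 n) (norm_nonneg _))] at h3
    have h4 : s / 2 ≤ ‖φ‖ * ‖w‖ := by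
      refine le_trans ?_ h3
      rw [hs, Finset.sum_div]
      apply Finset.sum_le_sum
      intro n _
      have := mul_le_mul_of_nonneg_left (hu2 n) (hb0 n)
      nlinarith
    have h5 : (s / 2) ^ 2 ≤ ‖φ‖ ^ 2 * s := by
      calc (s / 2) ^ 2 ≤ (‖φ‖ * ‖w‖) ^ 2 := pow_le_pow_left₀ (by linarith) h4 2
        _ = ‖φ‖ ^ 2 * ‖w‖ ^ 2 := by ring
        _ ≤ ‖φ‖ ^ 2 * s := mul_le_mul_of_nonneg_left hwn (sq_nonneg _)
    rw [← hs]
    rcases hs0.eq_or_lt with h6 | h6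
    · rw [← h6]
      positivity
    · nlinarith
  have hsm : Summable (fun n => b n ^ 2) := summable_of_sum_le (fun n => sq_nonneg _) hsum
  obtain ⟨F, hF⟩ := summable_iff_vanishing_norm.1 hsm (ε ^ 2) (by positivity)
  refine ⟨F, fun z => ?_⟩
  have h3 : HasSum (fun n => φ (sgl 𝕜 n (z n))) (φ z) := φ.hasSum (hasSum_sgl z)
  have h4 : Tendsto (fun G : Finset ℕ => ‖∑ n ∈ G, φ (sgl 𝕜 n (z n)) - ∑ n ∈ F, φ (sgl 𝕜 n (z n))‖) atTop
      (𝓝 ‖φ z - ∑ n ∈ F, φ (sgl 𝕜 n (z n))‖) := (Filter.Tendsto.sub_const h3 _).norm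
  refine le_of_tendsto h4 ?_
  filter_upwards [eventually_ge_atTop F] with G hG
  rw [← Finset.sum_sdiff hG, add_sub_cancel_right]
  have h5 := hF (G \ F) Finset.sdiff_disjoint
  rw [Real.norm_eq_abs, abs_of_nonneg (Finset.sum_nonneg fun n _ => sq_nonneg _)] at h5
  have h6 : ‖∑ n ∈ G \ F, φ (sgl 𝕜 n (z n))‖ ≤ ∑ n ∈ G \ F, b n * ‖z n‖ :=
    (norm_sum_le _ _).trans (Finset.sum_le_sum fun n _ => hbp n _)
  refine h6.trans ?_
  have h7 := Finset.sum_mul_sq_le_sq_mul_sq (G \ F) b (fun n => ‖z n‖)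
  have h8 : (∑ n ∈ G \ F, b n * ‖z n‖) ^ 2 ≤ (ε * ‖z‖) ^ 2 := by
    refine h7.trans ?_
    rw [mul_pow]
    exact mul_le_mul h5.le (sum_sq_le z _) (Finset.sum_nonneg fun n _ => sq_nonneg _) (sq_nonneg _)
  exact le_of_sq_le_sq' h8 (by positivity)
where
  le_of_sq_le_sq' {a b : ℝ} (h : a ^ 2 ≤ b ^ 2) (hb : 0 ≤ b) : a ≤ b := by
    by_contra hc
    push Not at hc
    nlinarith

theorem uwc_l2 [CompleteSpace Y] (S : L2S P →L[𝕜] Y) (h : ∀ n, UWC (S.comp (sgl 𝕜 n))) : UWC S := by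
  classical
  intro R 𝓤 hR
  have hR0 : 0 ≤ R := by
    obtain ⟨x, hx⟩ := 𝓤.nonempty_of_mem hR
    rw [mem_closedBall_zero_iff] at hx
    exact (norm_nonneg x).trans hx
  have hzn : ∀ (z : L2S P) n, ‖z n‖ ≤ ‖z‖ := fun z n => lp.norm_apply_le_norm (by norm_num) z n
  -- the limits of the coordinates
  have h1 : ∀ n, ∃ y : Y, ∀ f : StrongDual 𝕜 Y, Tendsto (fun z : L2S P => f (S (sgl 𝕜 n (z n)))) 𝓤 (𝓝 (f y)) := by
    intro n
    obtain ⟨y, hy⟩ := h n R (𝓤.map (fun z : L2S P => z n)) (by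
      rw [Ultrafilter.mem_map]
      refine Filter.mem_of_superset hR fun z hz => ?_
      rw [mem_closedBall_zero_iff] at hz
      show z n ∈ Metric.closedBall (0 : P) R
      rw [mem_closedBall_zero_iff]
      exact (hzn z n).trans hz)
    exact ⟨y, fun f => hy f⟩
  choose y hy using h1
  -- the limits of the norms
  have h2 : ∀ n, ∃ a : ℝ, Tendsto (fun z : L2S P => ‖z n‖) 𝓤 (𝓝 a) := by
    intro n
    have hc : IsCompact (Set.Icc (0 : ℝ) R) := isCompact_Icc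
    obtain ⟨a, _, ha⟩ := hc.ultrafilter_le_nhds (𝓤.map (fun z : L2S P => ‖z n‖)) (by
      rw [le_principal_iff]
      show _ ∈ 𝓤.map (fun z : L2S P => ‖z n‖)
      rw [Ultrafilter.mem_map]
      refine Filter.mem_of_superset hR fun z hz => ?_
      rw [mem_closedBall_zero_iff] at hz
      exact ⟨norm_nonneg _, (hzn z n).trans hz⟩)
    exact ⟨a, ha⟩
  choose a ha using h2
  have hasq : ∀ G : Finset ℕ, ∑ n ∈ G, a n ^ 2 ≤ R ^ 2 := by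
    intro G
    have h3 : Tendsto (fun z : L2S P => ∑ n ∈ G, ‖z n‖ ^ 2) 𝓤 (𝓝 (∑ n ∈ G, a n ^ 2)) :=
      tendsto_finsetSum _ fun n _ => (ha n).pow 2
    refine le_of_tendsto h3 ?_
    refine Filter.mem_of_superset hR fun z hz => ?_
    rw [mem_closedBall_zero_iff] at hz
    exact (sum_sq_le z G).trans (pow_le_pow_left₀ (norm_nonneg _) hz 2)
  have hysum : ∀ G : Finset ℕ, ‖∑ n ∈ G, y n‖ ≤ ‖S‖ * Real.sqrt (∑ n ∈ G, a n ^ 2) := by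
    intro G
    apply NormedSpace.norm_le_dual_bound 𝕜 _ (by positivity)
    intro f
    have h3 : Tendsto (fun z : L2S P => ‖f (S (∑ n ∈ G, sgl 𝕜 n (z n)))‖) 𝓤 (𝓝 ‖f (∑ n ∈ G, y n)‖) := by
      have h4 : Tendsto (fun z : L2S P => ∑ n ∈ G, f (S (sgl 𝕜 n (z n)))) 𝓤 (𝓝 (∑ n ∈ G, f (y n))) :=
        tendsto_finsetSum _ fun n _ => hy n f
      rw [map_sum]
      refine (h4.congr fun z => ?_).norm
      rw [map_sum, map_sum]
    have h4 : Tendsto (fun z : L2S P => ‖S‖ * Real.sqrt (∑ n ∈ G, ‖z n‖ ^ 2) * ‖f‖) 𝓤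
        (𝓝 (‖S‖ * Real.sqrt (∑ n ∈ G, a n ^ 2) * ‖f‖)) := by
      have h5 : Tendsto (fun z : L2S P => ∑ n ∈ G, ‖z n‖ ^ 2) 𝓤 (𝓝 (∑ n ∈ G, a n ^ 2)) :=
        tendsto_finsetSum _ fun n _ => (ha n).pow 2
      exact (((Real.continuous_sqrt.tendsto _).comp h5).const_mul _).mul_const _
    refine le_of_tendsto_of_tendsto h3 h4 (Filter.Eventually.of_forall fun z => ?_)
    show ‖f (S (∑ n ∈ G, sgl 𝕜 n (z n)))‖ ≤ ‖S‖ * Real.sqrt (∑ n ∈ G, ‖z n‖ ^ 2) * ‖f‖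
    refine (f.le_opNorm _).trans ?_
    rw [mul_comm]
    refine mul_le_mul_of_nonneg_right ((S.le_opNorm _).trans ?_) (norm_nonneg _)
    refine mul_le_mul_of_nonneg_left ?_ (norm_nonneg _)
    apply Real.le_sqrt_of_sq_le
    exact (norm_sum_sgl (fun n => z n) G).le
  have hasm : Summable (fun n => a n ^ 2) := summable_of_sum_le (fun n => sq_nonneg _) hasq
  have hys : Summable y := by
    rw [summable_iff_vanishing_norm]
    intro ε hε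
    obtain ⟨F, hF⟩ := summable_iff_vanishing_norm.1 hasm ((ε / (‖S‖ + 1)) ^ 2) (by positivity)
    refine ⟨F, fun G hG => ?_⟩
    have h3 := hF G hG
    rw [Real.norm_eq_abs, abs_of_nonneg (Finset.sum_nonneg fun n _ => sq_nonneg _)] at h3
    have h4 : Real.sqrt (∑ n ∈ G, a n ^ 2) ≤ ε / (‖S‖ + 1) := by
      rw [Real.sqrt_le_left (by positivity)]
      exact h3.le
    refine (hysum G).trans_lt ?_
    have h5 : ‖S‖ * Real.sqrt (∑ n ∈ G, a n ^ 2) ≤ ‖S‖ * (ε / (‖S‖ + 1)) :=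
      mul_le_mul_of_nonneg_left h4 (norm_nonneg _)
    refine h5.trans_lt ?_
    rw [mul_div_assoc', div_lt_iff₀ (by positivity)]
    nlinarith [norm_nonneg S]
  obtain ⟨y0, hy0⟩ := hys
  refine ⟨y0, fun f => ?_⟩
  rw [Metric.tendsto_nhds]
  intro ε hε
  obtain ⟨F1, hF1⟩ := functional_tail (f.comp S) (show 0 < ε / (4 * (R + 1)) by positivity)
  have hfy : HasSum (fun n => f (y n)) (f y0) := f.hasSum hy0
  obtain ⟨F2, hF2⟩ := Metric.tendsto_atTop.1 hfy (ε / 4) (by positivity)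
  -- enlarge the first set
  have hF3 : ∀ z : L2S P, ‖z‖ ≤ R → ‖f (S z) - ∑ n ∈ F1 ∪ F2, f (S (sgl 𝕜 n (z n)))‖ ≤ ε / 2 := by
    intro z hz
    have h3 := hF1 z
    have h4 := hF1 (∑ n ∈ F1 ∪ F2, sgl 𝕜 n (z n))
    have h5 : ∀ m ∈ F1, (∑ n ∈ F1 ∪ F2, sgl 𝕜 n (z n) : L2S P) m = z m := by
      intro m hm
      rw [lp.coeFn_sum, Finset.sum_apply]
      rw [Finset.sum_eq_single m]
      · exact lp.single_apply_self (E := fun _ : ℕ => P) 2 m (z m)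
      · intro n _ hne
        exact lp.single_apply_ne (E := fun _ : ℕ => P) 2 n (z n) (Ne.symm hne)
      · intro hm'
        exact absurd (Finset.mem_union_left _ hm) hm'
    have h6 : ∑ n ∈ F1, (f.comp S) (sgl 𝕜 n ((∑ n ∈ F1 ∪ F2, sgl 𝕜 n (z n) : L2S P) n)) =
        ∑ n ∈ F1, (f.comp S) (sgl 𝕜 n (z n)) :=
      Finset.sum_congr rfl fun m hm => by rw [h5 m hm]
    rw [h6] at h4
    have h7 : ‖(∑ n ∈ F1 ∪ F2, sgl 𝕜 n (z n) : L2S P)‖ ≤ ‖z‖ := by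
      have h8 : ‖(∑ n ∈ F1 ∪ F2, sgl 𝕜 n (z n) : L2S P)‖ ^ 2 ≤ ‖z‖ ^ 2 := by
        rw [norm_sum_sgl (fun n => z n)]
        exact sum_sq_le z _
      exact functional_tail.le_of_sq_le_sq' h8 (norm_nonneg _)
    have e1 : f (S z) - ∑ n ∈ F1 ∪ F2, f (S (sgl 𝕜 n (z n))) =
        ((f.comp S) z - ∑ n ∈ F1, (f.comp S) (sgl 𝕜 n (z n))) -
        ((f.comp S) (∑ n ∈ F1 ∪ F2, sgl 𝕜 n (z n)) - ∑ n ∈ F1, (f.comp S) (sgl 𝕜 n (z n))) := by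
      have e2 : (f.comp S) (∑ n ∈ F1 ∪ F2, sgl 𝕜 n (z n)) = ∑ n ∈ F1 ∪ F2, f (S (sgl 𝕜 n (z n))) := by
        show f (S _) = _
        rw [map_sum, map_sum]
      rw [e2]
      show _ = (f (S z) - _) - _
      ring
    rw [e1]
    refine (norm_sub_le _ _).trans ?_
    have e3 : ε / (4 * (R + 1)) * ‖z‖ ≤ ε / 4 := by
      rw [div_mul_eq_mul_div, div_le_div_iff₀ (by positivity) (by norm_num)]
      nlinarith
    have e4 : ε / (4 * (R + 1)) * ‖(∑ n ∈ F1 ∪ F2, sgl 𝕜 n (z n) : L2S P)‖ ≤ ε / (4 * (R + 1)) * ‖z‖ :=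
      mul_le_mul_of_nonneg_left h7 (by positivity)
    linarith
  have h3 : Tendsto (fun z : L2S P => ∑ n ∈ F1 ∪ F2, f (S (sgl 𝕜 n (z n)))) 𝓤 (𝓝 (∑ n ∈ F1 ∪ F2, f (y n))) :=
    tendsto_finsetSum _ fun n _ => hy n f
  have h4 := Metric.tendsto_nhds.1 h3 (ε / 4) (by positivity)
  filter_upwards [h4, hR] with z hz1 hz2
  rw [mem_closedBall_zero_iff] at hz2
  have h5 := hF3 z hz2
  have h6 := hF2 (F1 ∪ F2) Finset.subset_union_right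
  rw [dist_eq_norm] at hz1 ⊢
  rw [dist_eq_norm] at h6
  have e1 : f (S z) - f y0 = (f (S z) - ∑ n ∈ F1 ∪ F2, f (S (sgl 𝕜 n (z n)))) +
      (∑ n ∈ F1 ∪ F2, f (S (sgl 𝕜 n (z n))) - ∑ n ∈ F1 ∪ F2, f (y n)) + (∑ n ∈ F1 ∪ F2, f (y n) - f y0) := by ring
  rw [e1]
  refine (norm_add₃_le).trans_lt ?_
  linarith

end Q99.RD
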