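import Pool.Agent.Q99.RD.Defs

/-!
# Weak compactness of operators by ultrafilters
-/

set_option autoImplicit false
open Filter Topology
open scoped ENNReal NNReal

namespace Q99.RD

variable {𝕜 : Type} [RCLike 𝕜] {X Y Z : Type} [NormedAddCommGroup X] [NormedSpace 𝕜 X]
  [NormedAddCommGroup Y] [NormedSpace 𝕜 Y] [NormedAddCommGroup Z] [NormedSpace 𝕜 Z]

/-- weak compactness in terms of ultrafilters -/
def UWC (T : X →L[𝕜] Y) : Prop :=
  ∀ (R : ℝ) (𝓤 : Ultrafilter X), Metric.closedBall (0 : X) R ∈ 𝓤 →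
    ∃ y : Y, ∀ f : StrongDual 𝕜 Y, Tendsto (fun x => f (T x)) 𝓤 (𝓝 (f y))

theorem UWC.weaklyCompact {T : X →L[𝕜] Y} (h : UWC T) : WeaklyCompact T := by
  let ι : WeakSpace 𝕜 Y → (StrongDual 𝕜 Y → 𝕜) := fun y f => f ((toWeakSpace 𝕜 Y).symm y)
  have hι : IsInducing ι := ⟨rfl⟩
  obtain ⟨A, hA⟩ : ∃ A : Set (WeakSpace 𝕜 Y), A = toWeakSpace 𝕜 Y '' (T '' Metric.closedBall (0 : X) 1) := ⟨_, rfl⟩
  let g : X → (StrongDual 𝕜 Y → 𝕜) := fun x f => f (T x)
  have hgA : ι '' A = g '' Metric.closedBall (0 : X) 1 := by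
    rw [hA, Set.image_image, Set.image_image]
    rfl
  have hK : IsCompact (closure (ι '' A)) := by
    have h1 : IsCompact (Set.pi Set.univ (fun f : StrongDual 𝕜 Y => Metric.closedBall (0 : 𝕜) (‖f‖ * ‖T‖))) :=
      isCompact_univ_pi fun f => isCompact_closedBall _ _
    refine h1.of_isClosed_subset isClosed_closure (closure_minimal ?_ h1.isClosed)
    rw [hgA]
    rintro _ ⟨x, hx, rfl⟩ f _
    rw [mem_closedBall_zero_iff] at hx ⊢
    show ‖f (T x)‖ ≤ ‖f‖ * ‖T‖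
    refine (f.le_opNorm _).trans (mul_le_mul_of_nonneg_left ?_ (norm_nonneg _))
    refine (T.le_opNorm _).trans ?_
    nlinarith [norm_nonneg T]
  have hKr : closure (ι '' A) ⊆ Set.range ι := by
    intro k hk
    rw [mem_closure_iff_ultrafilter] at hk
    obtain ⟨u, hu1, hu2⟩ := hk
    rw [hgA] at hu1
    obtain ⟨y, hy⟩ := h 1 (Ultrafilter.ofComapInfPrincipal hu1) (Ultrafilter.ofComapInfPrincipal_mem hu1)
    refine ⟨toWeakSpace 𝕜 Y y, ?_⟩
    have h1 : Tendsto g (Ultrafilter.ofComapInfPrincipal hu1) (𝓝 (ι (toWeakSpace 𝕜 Y y))) := by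
      rw [tendsto_pi_nhds]
      intro f
      exact hy f
    have h2 : Tendsto g (Ultrafilter.ofComapInfPrincipal hu1) (𝓝 k) := by
      have h3 := Ultrafilter.ofComapInfPrincipal_eq_of_map hu1
      show Filter.map g (Ultrafilter.ofComapInfPrincipal hu1) ≤ 𝓝 k
      rw [← Ultrafilter.coe_map, h3]
      exact hu2
    exact tendsto_nhds_unique h1 h2
  show IsCompact (closure (toWeakSpace 𝕜 Y '' (T '' Metric.closedBall (0 : X) 1)))
  rw [← hA]
  have h1 : IsCompact (ι ⁻¹' closure (ι '' A)) := (hι.isCompact_preimage_iff hKr).2 hK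
  refine h1.of_isClosed_subset isClosed_closure ?_
  exact (Set.image_subset_iff.1 subset_closure |> fun h2 => closure_minimal h2 (isClosed_closure.preimage hι.continuous))

/-- relatively weakly compact image of the ball: the converse -/
theorem WeaklyCompact.uwc {T : X →L[𝕜] Y} (h : WeaklyCompact T) : UWC T := by
  intro R 𝓤 hR
  obtain ⟨r, hr0, hr⟩ : ∃ r : ℝ, 0 < r ∧ R ≤ r := ⟨|R| + 1, by positivity, by linarith [le_abs_self R]⟩
  let s : X → WeakSpace 𝕜 Y := fun x => toWeakSpace 𝕜 Y (T (((r⁻¹ : ℝ) : 𝕜) • x))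
  have h1 : closure (toWeakSpace 𝕜 Y '' (T '' Metric.closedBall (0 : X) 1)) ∈ 𝓤.map s := by
    rw [Ultrafilter.mem_map]
    refine Filter.mem_of_superset hR fun x hx => ?_
    rw [mem_closedBall_zero_iff] at hx
    apply subset_closure
    refine ⟨_, ⟨((r⁻¹ : ℝ) : 𝕜) • x, ?_, rfl⟩, rfl⟩
    rw [mem_closedBall_zero_iff, norm_smul, RCLike.norm_ofReal, abs_of_pos (by positivity), inv_mul_eq_div,
      div_le_one hr0]
    exact hx.trans hr
  obtain ⟨w, _, hw⟩ := h.ultrafilter_le_nhds (𝓤.map s) (by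
    rw [le_principal_iff]
    exact h1)
  refine ⟨((r : ℝ) : 𝕜) • (toWeakSpace 𝕜 Y).symm w, fun f => ?_⟩
  have h2 : Tendsto s 𝓤 (𝓝 w) := hw
  have h3 : Continuous (fun v : WeakSpace 𝕜 Y => f ((toWeakSpace 𝕜 Y).symm v)) :=
    WeakBilin.eval_continuous _ f
  have h4 := (h3.tendsto w).comp h2
  have h5 := h4.const_smul ((r : ℝ) : 𝕜)
  rw [map_smul]
  refine h5.congr fun x => ?_
  show ((r : ℝ) : 𝕜) • f (T (((r⁻¹ : ℝ) : 𝕜) • x)) = f (T x)
  rw [map_smul, map_smul, smul_smul, ← RCLike.ofReal_mul, mul_inv_cancel₀ hr0.ne', RCLike.ofReal_one, one_smul]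

theorem UWC.comp {T : Y →L[𝕜] Z} (h : UWC T) (S : X →L[𝕜] Y) : UWC (T.comp S) := by
  intro R 𝓤 hR
  obtain ⟨y, hy⟩ := h (‖S‖ * R) (𝓤.map S) (by
    rw [Ultrafilter.mem_map]
    refine Filter.mem_of_superset hR fun x hx => ?_
    rw [mem_closedBall_zero_iff] at hx
    show S x ∈ Metric.closedBall (0 : Y) (‖S‖ * R)
    rw [mem_closedBall_zero_iff]
    exact (S.le_opNorm x).trans (mul_le_mul_of_nonneg_left hx (norm_nonneg _)))
  exact ⟨y, fun f => hy f⟩

/-- operators on a quotient -/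
theorem UWC.of_comp_surj {T : Y →L[𝕜] Z} (π : X →L[𝕜] Y) (C : ℝ) (hπ : ∀ y, ∃ x, π x = y ∧ ‖x‖ ≤ C * ‖y‖ + 1)
    (h : UWC (T.comp π)) : UWC T := by
  intro R 𝓤 hR
  choose s hs1 hs2 using hπ
  obtain ⟨y, hy⟩ := h (|C| * |R| + 1) (𝓤.map s) (by
    rw [Ultrafilter.mem_map]
    refine Filter.mem_of_superset hR fun x hx => ?_
    rw [mem_closedBall_zero_iff] at hx
    show s x ∈ Metric.closedBall (0 : X) (|C| * |R| + 1)
    rw [mem_closedBall_zero_iff]
    refine (hs2 x).trans ?_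
    have h1 : C * ‖x‖ ≤ |C| * |R| :=
      (mul_le_mul_of_nonneg_right (le_abs_self C) (norm_nonneg x)).trans
        (mul_le_mul_of_nonneg_left (hx.trans (le_abs_self R)) (abs_nonneg C))
    linarith)
  refine ⟨y, fun f => ?_⟩
  have h1 := hy f
  rw [Ultrafilter.coe_map, tendsto_map'_iff] at h1
  refine h1.congr fun x => ?_
  show f (T (π (s x))) = f (T x)
  rw [hs1]

/-- the limit in the bidual along an ultrafilter -/
theorem exists_limit (T : X →L[𝕜] Y) (R : ℝ) (𝓤 : Ultrafilter X) (hR : Metric.closedBall (0 : X) R ∈ 𝓤) :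
    ∃ z : StrongDual 𝕜 (StrongDual 𝕜 Y), ∀ f : StrongDual 𝕜 Y, Tendsto (fun x => f (T x)) 𝓤 (𝓝 (z f)) := by
  have hR0 : 0 ≤ R := by
    obtain ⟨x, hx⟩ := 𝓤.nonempty_of_mem hR
    rw [mem_closedBall_zero_iff] at hx
    exact (norm_nonneg x).trans hx
  have hb : ∀ f : StrongDual 𝕜 Y, ∀ x ∈ Metric.closedBall (0 : X) R, ‖f (T x)‖ ≤ (‖T‖ * R) * ‖f‖ := by
    intro f x hx
    rw [mem_closedBall_zero_iff] at hx
    refine (f.le_opNorm _).trans ?_
    rw [mul_comm]
    refine mul_le_mul_of_nonneg_right ?_ (norm_nonneg _)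
    exact (T.le_opNorm x).trans (mul_le_mul_of_nonneg_left hx (norm_nonneg _))
  have h1 : ∀ f : StrongDual 𝕜 Y, ∃ c : 𝕜, Tendsto (fun x => f (T x)) 𝓤 (𝓝 c) := by
    intro f
    have hc : IsCompact (Metric.closedBall (0 : 𝕜) ((‖T‖ * R) * ‖f‖)) := isCompact_closedBall _ _
    obtain ⟨c, _, hc2⟩ := hc.ultrafilter_le_nhds (𝓤.map (fun x => f (T x))) (by
      rw [le_principal_iff]
      show _ ∈ 𝓤.map (fun x => f (T x))
      rw [Ultrafilter.mem_map]
      refine Filter.mem_of_superset hR fun x hx => ?_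
      show f (T x) ∈ Metric.closedBall (0 : 𝕜) ((‖T‖ * R) * ‖f‖)
      rw [mem_closedBall_zero_iff]
      exact hb f x hx)
    exact ⟨c, hc2⟩
  choose z hz using h1
  let L : StrongDual 𝕜 Y →ₗ[𝕜] 𝕜 :=
    { toFun := z
      map_add' := fun f g => tendsto_nhds_unique (hz (f + g)) ((hz f).add (hz g))
      map_smul' := fun c f => tendsto_nhds_unique (hz (c • f)) ((hz f).const_smul c) }
  refine ⟨L.mkContinuous (‖T‖ * R) fun f => ?_, hz⟩
  refine le_of_tendsto (hz f).norm ?_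
  exact Filter.mem_of_superset hR fun x hx => hb f x hx

/-- the closure of a set under midpoints -/
inductive Mid (𝕜 : Type) [RCLike 𝕜] {X : Type} [NormedAddCommGroup X] [NormedSpace 𝕜 X] (S : Set X) : X → Prop
  | base (x : X) (hx : x ∈ S) : Mid 𝕜 S x
  | mid (x y : X) (hx : Mid 𝕜 S x) (hy : Mid 𝕜 S y) : Mid 𝕜 S ((2⁻¹ : 𝕜) • (x + y))

theorem Mid.mono {S S' : Set X} (h : S ⊆ S') {x : X} (hx : Mid 𝕜 S x) : Mid 𝕜 S' x := by
  induction hx with
  | base x hx => exact Mid.base x (h hx)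
  | mid x y _ _ h1 h2 => exact Mid.mid x y h1 h2

theorem Mid.ball {S : Set X} {E : Type} [NormedAddCommGroup E] [NormedSpace 𝕜 E] (T : X →L[𝕜] E) (c : E) (r : ℝ)
    (h : ∀ x ∈ S, ‖T x - c‖ ≤ r) {x : X} (hx : Mid 𝕜 S x) : ‖T x - c‖ ≤ r := by
  induction hx with
  | base x hx => exact h x hx
  | mid x y _ _ h1 h2 =>
    have e : T ((2⁻¹ : 𝕜) • (x + y)) - c = (2⁻¹ : 𝕜) • ((T x - c) + (T y - c)) := by
      have e1 : c = (2⁻¹ : 𝕜) • (c + c) := by
        rw [← two_smul 𝕜 c, smul_smul, inv_mul_cancel₀ (two_ne_zero' 𝕜), one_smul]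
      rw [map_smul, map_add]
      conv_lhs => rw [e1]
      rw [← smul_sub]
      congr 1
      abel
    rw [e, norm_smul, norm_inv, RCLike.norm_ofNat]
    have e2 := norm_add_le (T x - c) (T y - c)
    linarith

/-- the canonical image is closed -/
theorem exists_of_near [CompleteSpace Y] (z : StrongDual 𝕜 (StrongDual 𝕜 Y))
    (h : ∀ ε : ℝ, 0 < ε → ∃ y : Y, ∀ f : StrongDual 𝕜 Y, ‖z f - f y‖ ≤ ε * ‖f‖) : ∃ y : Y, ∀ f, z f = f y := by
  have h1 : ∀ n : ℕ, ∃ y : Y, ∀ f : StrongDual 𝕜 Y, ‖z f - f y‖ ≤ (1 / 2) ^ n * ‖f‖ :=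
    fun n => h _ (by positivity)
  choose y hy using h1
  have h2 : ∀ n m, ‖y n - y m‖ ≤ (1 / 2) ^ n + (1 / 2) ^ m := by
    intro n m
    apply NormedSpace.norm_le_dual_bound 𝕜 _ (by positivity)
    intro f
    have e1 : f (y n - y m) = -(z f - f (y n)) + (z f - f (y m)) := by
      rw [map_sub]
      ring
    rw [e1, add_mul]
    refine (norm_add_le _ _).trans ?_
    rw [norm_neg]
    exact add_le_add (hy n f) (hy m f)
  have h3 : CauchySeq y := by
    apply cauchySeq_of_le_geometric (1 / 2) 2 (by norm_num)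
    intro n
    rw [dist_eq_norm]
    refine (h2 n (n + 1)).trans ?_
    rw [pow_succ]
    have : (0 : ℝ) < (1 / 2) ^ n := by positivity
    linarith
  obtain ⟨y0, hy0⟩ := cauchySeq_tendsto_of_complete h3
  refine ⟨y0, fun f => ?_⟩
  have h4 : Tendsto (fun n => z f - f (y n)) atTop (𝓝 (z f - f y0)) :=
    tendsto_const_nhds.sub ((f.continuous.tendsto y0).comp hy0)
  have h5 : Tendsto (fun n => z f - f (y n)) atTop (𝓝 0) := by
    rw [tendsto_zero_iff_norm_tendsto_zero]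
    refine squeeze_zero (fun n => norm_nonneg _) (fun n => hy n f) ?_
    have h6 := (tendsto_pow_atTop_nhds_zero_of_lt_one (r := (1 / 2 : ℝ)) (by norm_num) (by norm_num)).mul_const ‖f‖
    rw [zero_mul] at h6
    exact h6
  exact sub_eq_zero.1 (tendsto_nhds_unique h4 h5)

/-- a criterion for weak compactness: the operator is controlled by functions satisfying the parallelogram law -/
theorem uwc_of_quadratic [CompleteSpace Y] (T : X →L[𝕜] Y)
    (h : ∀ ε : ℝ, 0 < ε → ∀ R : ℝ, ∃ (q : X → ℝ) (C δ : ℝ), 0 < δ ∧ (∀ x, 0 ≤ q x) ∧ (∀ x, ‖x‖ ≤ R → q x ≤ C) ∧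
      (∀ x y, q (x + y) + q (x - y) = 2 * q x + 2 * q y) ∧
      ∀ x, ‖x‖ ≤ 2 * R → q x ≤ δ → ‖T x‖ ≤ ε) : UWC T := by
  intro R 𝓤 hR
  obtain ⟨z, hz⟩ := exists_limit T R 𝓤 hR
  obtain ⟨y, hy⟩ := exists_of_near z (by
    intro ε hε
    obtain ⟨q, C, δ, hδ, hq0, hqC, hqp, hqT⟩ := h (ε / 2) (half_pos hε) R
    have hq00 : q 0 = 0 := by
      have := hqp 0 0
      rw [add_zero, sub_zero] at this
      linarith
    have hq2 : ∀ x, q (x + x) = 4 * q x := by
      intro x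
      have := hqp x x
      rw [sub_self, hq00] at this
      linarith
    have hmR : ∀ {S : Set X}, S ⊆ Metric.closedBall (0 : X) R → ∀ {x}, Mid 𝕜 S x → ‖x‖ ≤ R := by
      intro S hS x hx
      have := Mid.ball (ContinuousLinearMap.id 𝕜 X) 0 R (fun y hy => by
        have := hS hy
        rw [mem_closedBall_zero_iff] at this
        rw [sub_zero]
        exact this) hx
      rw [sub_zero] at this
      exact this
    -- the infima over the tails
    obtain ⟨d, hd⟩ : ∃ d : Set X → ℝ, d = fun S => sInf (q '' {x | Mid 𝕜 S x}) := ⟨_, rfl⟩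
    have hbd : ∀ S : Set X, BddBelow (q '' {x | Mid 𝕜 S x}) := fun S => ⟨0, by
      rintro _ ⟨x, _, rfl⟩
      exact hq0 x⟩
    have hdle : ∀ S : Set X, ∀ x, Mid 𝕜 S x → d S ≤ q x := fun S x hx => by
      rw [hd]
      exact csInf_le (hbd S) ⟨x, hx, rfl⟩
    have hdex : ∀ S : Set X, S.Nonempty → ∀ η : ℝ, 0 < η → ∃ x, Mid 𝕜 S x ∧ q x < d S + η := by
      rintro S ⟨x0, hx0⟩ η hη
      have hne : (q '' {x | Mid 𝕜 S x}).Nonempty := ⟨q x0, x0, Mid.base x0 hx0, rfl⟩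
      obtain ⟨_, ⟨x, hx, rfl⟩, hlt⟩ := exists_lt_of_csInf_lt hne (show sInf (q '' {x | Mid 𝕜 S x}) < d S + η by
        rw [hd]
        linarith)
      exact ⟨x, hx, hlt⟩
    obtain ⟨D, hD⟩ : ∃ D : Set ℝ, D = d '' {S : Set X | S ∈ 𝓤 ∧ S ⊆ Metric.closedBall (0 : X) R} := ⟨_, rfl⟩
    have hDne : D.Nonempty := by
      rw [hD]
      exact ⟨_, _, ⟨hR, subset_rfl⟩, rfl⟩
    have hDbd : BddAbove D := by
      refine ⟨C, ?_⟩
      rw [hD]
      rintro _ ⟨S, ⟨hS1, hS2⟩, rfl⟩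
      obtain ⟨x, hx⟩ := 𝓤.nonempty_of_mem hS1
      have hx' := hS2 hx
      rw [mem_closedBall_zero_iff] at hx'
      exact (hdle S x (Mid.base x hx)).trans (hqC x hx')
    obtain ⟨_, hS0D, hlt⟩ := exists_lt_of_lt_csSup hDne (show sSup D - δ / 8 < sSup D by linarith)
    rw [hD] at hS0D
    obtain ⟨S0, ⟨hS01, hS02⟩, rfl⟩ := hS0D
    have hsel : ∀ S : Set X, S ∈ 𝓤 → S ⊆ S0 → ∃ x, Mid 𝕜 S x ∧ q x < sSup D + δ / 8 := by
      intro S hS1 hS2
      obtain ⟨x, hx1, hx2⟩ := hdex S (𝓤.nonempty_of_mem hS1) (δ / 8) (by positivity)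
      refine ⟨x, hx1, hx2.trans_le ?_⟩
      have : d S ≤ sSup D := by
        apply le_csSup hDbd
        rw [hD]
        exact ⟨S, ⟨hS1, hS2.trans hS02⟩, rfl⟩
      linarith
    obtain ⟨g0, hg01, hg02⟩ := hsel S0 hS01 subset_rfl
    have hfin : ∀ f : StrongDual 𝕜 Y, ‖z f - f (T g0)‖ ≤ ε / 2 * ‖f‖ := by
      intro f
      apply le_of_forall_pos_le_add
      intro η hη
      obtain ⟨S, hS⟩ : ∃ S : Set X, S = S0 ∩ {x | ‖f (T x) - z f‖ ≤ η} := ⟨_, rfl⟩
      have hSU : S ∈ 𝓤 := by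
        rw [hS]
        refine Filter.inter_mem hS01 ?_
        have h1 := (hz f).sub_const (z f)
        rw [sub_self] at h1
        have h2 := h1.norm
        rw [norm_zero] at h2
        have h3 : ∀ᶠ x in (𝓤 : Filter X), ‖f (T x) - z f‖ < η := h2.eventually (gt_mem_nhds hη)
        exact h3.mono fun x hx => hx.le
      obtain ⟨g, hg1, hg2⟩ := hsel S hSU (by rw [hS]; exact Set.inter_subset_left)
      have hg3 : ‖f (T g) - z f‖ ≤ η := Mid.ball (f.comp T) (z f) η (fun x hx => by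
        rw [hS] at hx
        exact hx.2) hg1
      have hgS0 : Mid 𝕜 S0 g := hg1.mono (by rw [hS]; exact Set.inter_subset_left)
      have hm := hdle S0 _ (Mid.mid g g0 hgS0 hg01)
      have e1 : q (g + g0) = 4 * q ((2⁻¹ : 𝕜) • (g + g0)) := by
        rw [← hq2]
        congr 1
        rw [← smul_add, ← two_smul 𝕜 (g + g0), smul_smul, inv_mul_cancel₀ (two_ne_zero' 𝕜), one_smul]
      have e2 := hqp g g0
      have hqs : q (g - g0) ≤ δ := by linarith
      have hn : ‖g - g0‖ ≤ 2 * R := by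
        refine (norm_sub_le _ _).trans ?_
        have a1 := hmR hS02 hgS0
        have a2 := hmR hS02 hg01
        linarith
      have hT := hqT (g - g0) hn hqs
      have e3 : z f - f (T g0) = -(f (T g) - z f) + f (T (g - g0)) := by
        rw [map_sub, map_sub]
        ring
      rw [e3]
      refine (norm_add_le _ _).trans ?_
      rw [norm_neg]
      have e4 : ‖f (T (g - g0))‖ ≤ ε / 2 * ‖f‖ := by
        refine (f.le_opNorm _).trans ?_
        rw [mul_comm]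
        exact mul_le_mul_of_nonneg_right hT (norm_nonneg _)
      linarith
    refine ⟨T g0, fun f => (hfin f).trans ?_⟩
    nlinarith [norm_nonneg f])
  refine ⟨y, fun f => ?_⟩
  have h1 := hz f
  rw [hy] at h1
  exact h1

end Q99.RD
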